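import Pool.Agent.Lib.MP_1a91b9_nuT.S3.Inj

/-!
# Stream S3, file Grp: zeros of the derivative, surjectivity, the addition law
-/

set_option autoImplicit false

namespace Pool.Agent.Lib.MP_1a91b9_nuT

open Complex Filter Topology S3

noncomputable section

variable [CD]

namespace Per

/-- The Weierstrass function tends to infinity at `0`. -/
theorem tendsto_sq_P : Tendsto (fun z => z ^ 2 * PP.weierstrassP z) (𝓝[≠] 0) (𝓝 1) := by
  have h1 : Tendsto (fun z => S3.Pr z * (z ^ 0)⁻¹) (𝓝[≠] 0) (𝓝 0) := S3.tendsto_Pr (by norm_num)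
  have h2 : Tendsto (fun z : ℂ => z ^ 2) (𝓝[≠] 0) (𝓝 0) := by
    have h3 : ContinuousAt (fun z : ℂ => z ^ 2) 0 := by fun_prop
    have h4 := h3.tendsto
    rw [zero_pow (by norm_num)] at h4
    exact h4.mono_left nhdsWithin_le_nhds
  have h5 := (h2.mul h1).const_add 1
  rw [mul_zero, add_zero] at h5
  refine h5.congr' ?_
  filter_upwards [self_mem_nhdsWithin] with z hz
  have hz0 : z ≠ 0 := hz
  rw [S3.P_eq z, mul_add, mul_inv_cancel₀ (pow_ne_zero 2 hz0), pow_zero, inv_one, mul_one]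

/-- the Weierstrass function is not locally constant -/
theorem P_ne_near {z : ℂ} (hz : z ∉ PP.lattice) :
    ∀ᶠ w in 𝓝[≠] z, PP.weierstrassP w ≠ PP.weierstrassP z := by
  have hA : AnalyticAt ℂ PP.weierstrassP z := PP.analyticOnNhd_weierstrassP z hz
  rcases (hA.sub analyticAt_const).eventually_eq_zero_or_eventually_ne_zero
    (f := fun w => PP.weierstrassP w - PP.weierstrassP z) with h | h
  · exfalso
    have hpre : IsPreconnected ((PP.lattice : Set ℂ)ᶜ) :=
      isPreconnected_compl_of_countable countable_lat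
    have hAn : AnalyticOnNhd ℂ (fun w => PP.weierstrassP w - PP.weierstrassP z)
        ((PP.lattice : Set ℂ)ᶜ) := fun w hw =>
      (PP.analyticOnNhd_weierstrassP w hw).sub analyticAt_const
    have hall := hAn.eqOn_zero_of_preconnected_of_eventuallyEq_zero hpre hz h
    have h1 : Tendsto (fun w : ℂ => w ^ 2 * PP.weierstrassP w) (𝓝[≠] 0) (𝓝 0) := by
      have h2 : Tendsto (fun w : ℂ => w ^ 2 * PP.weierstrassP z) (𝓝[≠] 0) (𝓝 0) := by
        have h3 : ContinuousAt (fun w : ℂ => w ^ 2 * PP.weierstrassP z) 0 := by fun_prop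
        have h4 := h3.tendsto
        rw [zero_pow (by norm_num), zero_mul] at h4
        exact h4.mono_left nhdsWithin_le_nhds
      refine h2.congr' ?_
      filter_upwards [eventually_notMem 0] with w hw
      have h5 : PP.weierstrassP w - PP.weierstrassP z = 0 := hall hw
      rw [sub_eq_zero.1 h5]
    exact zero_ne_one (tendsto_nhds_unique h1 tendsto_sq_P)
  · filter_upwards [h] with w hw h2
    exact hw (sub_eq_zero.2 h2)

/-- The zeros of the derivative are the points of order two. -/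
theorem Q_ne {w : ℂ} (hw : 2 * w ∉ PP.lattice) : PP.derivWeierstrassP w ≠ 0 := by
  intro h0
  have hw1 := notMem_of_two_mul hw
  have h1 : ∀ᶠ z in 𝓝[≠] w, E1 (z - w) - E1 (z + w) + 2 * E1 w = 0 := by
    have e1 : ∀ᶠ z in 𝓝[≠] w, z ∉ PP.lattice := eventually_notMem w
    have e2 := eventually_add_notMem (-w) w
    have e3 := eventually_add_notMem w w
    filter_upwards [e1, e2, e3, P_ne_near hw1] with z b1 b2 b3 b4
    rw [← sub_eq_add_neg] at b2
    have h := sig hw b1 b2 b3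
    rw [h0] at h
    exact (mul_eq_zero.1 h).resolve_left (sub_ne_zero.2 b4)
  have a2 : Tendsto (fun z => (z - w) * E1 (z - w)) (𝓝[≠] w) (𝓝 1) :=
    tendsto_E1_sub (by rw [sub_self]; exact zero_mem _)
  have a4 : Tendsto (fun z => E1 (z + w)) (𝓝[≠] w) (𝓝 (E1 (w + w))) := by
    have := tendsto_E1_shift (s := w) (w := -w) (by rw [sub_neg_eq_add, ← two_mul]; exact hw)
    simpa only [sub_neg_eq_add] using this
  have a5 := a2.add (tendsto_mul_zero ((a4.neg).add_const (2 * E1 w)))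
  rw [add_zero] at a5
  have a6 : Tendsto (fun _ : ℂ => (0 : ℂ)) (𝓝[≠] w) (𝓝 1) := by
    refine a5.congr' ?_
    filter_upwards [h1] with z hz
    linear_combination (z - w) * hz
  exact zero_ne_one (tendsto_nhds_unique tendsto_const_nhds a6)

theorem Q_zero {z : ℂ} (h : PP.derivWeierstrassP z = 0) :
    2 * z ∈ PP.lattice := by
  by_contra hc
  exact Q_ne hc h

/-- Injectivity up to sign. -/
theorem P_inj {w z : ℂ} (hw : 2 * w ∉ PP.lattice) (hz : z ∉ PP.lattice)
    (h : PP.weierstrassP z = PP.weierstrassP w) : z - w ∈ PP.lattice ∨ z + w ∈ PP.lattice :=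
  S3.P_inj hw (Q_ne hw) hz h

/-- Surjectivity. -/
theorem P_surj (c : ℂ) : ∃ z, z ∉ PP.lattice ∧ PP.weierstrassP z = c := by
  by_contra hc
  push Not at hc
  have hS : ∀ z : ℂ, ∀ᶠ w in 𝓝[≠] z, w ∉ (PP.lattice : Set ℂ) := fun z => S3.eventually_notMem z
  set F : ℂ → ℂ := fun z => (PP.weierstrassP z - c)⁻¹ with hF
  have hd : ∀ z ∉ (PP.lattice : Set ℂ), DifferentiableAt ℂ F z := fun z hz =>
    ((S3.hasDerivAt_P hz).differentiableAt.sub_const c).inv (sub_ne_zero.2 (hc z hz))
  have hp : ∀ l ∈ PP.lattice, ∀ z, F (z + l) = F z := by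
    intro l hl z
    rw [hF]
    simp only
    rw [S3.P_add hl]
  have h0 : Tendsto F (𝓝[≠] 0) (𝓝 0) := by
    have h2 : Tendsto (fun z : ℂ => z ^ 2) (𝓝[≠] 0) (𝓝 0) := by
      have h3 : ContinuousAt (fun z : ℂ => z ^ 2) 0 := by fun_prop
      have h4 := h3.tendsto
      rw [zero_pow (by norm_num)] at h4
      exact h4.mono_left nhdsWithin_le_nhds
    have h5 := tendsto_sq_P.sub (h2.mul_const c)
    rw [zero_mul, sub_zero] at h5
    have h6 := h2.mul (h5.inv₀ one_ne_zero)
    rw [zero_mul] at h6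
    refine h6.congr' ?_
    filter_upwards [self_mem_nhdsWithin] with z hz
    have hz0 : z ≠ 0 := hz
    rw [← mul_sub, mul_inv, ← mul_assoc, mul_inv_cancel₀ (pow_ne_zero 2 hz0), one_mul]
  have hb : ∀ s ∈ (PP.lattice : Set ℂ), Tendsto (fun z => (z - s) * F z) (𝓝[≠] s) (𝓝 0) :=
    fun s hs => S3.tendsto_mul_zero (S3.tendsto_at_lattice hp h0 hs)
  have h1 := S3.liouville_eq hS hd hb hp h0 (1 / 2) S3.half_notMem
  have h2 : PP.weierstrassP (1 / 2) - c ≠ 0 := sub_ne_zero.2 (hc _ S3.half_notMem)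
  exact inv_ne_zero h2 h1

end Per

namespace Ell

/-- The slope of the chord, divided by two. -/
def sl (u v : ℂ) : ℂ := (E1 (u + v) - E1 u - E1 v) / Om

theorem X_neg (z : ℂ) : X (-z) = X z := by rw [X, X, PP.weierstrassP_neg]

theorem Y_neg (z : ℂ) : Y (-z) = -Y z := by
  rw [Y, Y, PP.derivWeierstrassP_neg, neg_div]

theorem X_add {l : ℂ} (hl : l ∈ PP.lattice) (z : ℂ) : X (z + l) = X z := by
  rw [X, X, P_add hl]

theorem Y_add {l : ℂ} (hl : l ∈ PP.lattice) (z : ℂ) : Y (z + l) = Y z := by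
  rw [Y, Y, Q_add hl]

theorem sl_sq {u v : ℂ} (hu : u ∉ PP.lattice) (hv : v ∉ PP.lattice) (huv : u + v ∉ PP.lattice) :
    X u + X v + X (u + v) = sl u v ^ 2 := by
  have h := add_sq hu hv huv
  rw [sl, div_pow, h, X, X, X]
  ring

theorem chord0 {z w : ℂ} (hz : 2 * z ∉ PP.lattice) (hw : 2 * w ∉ PP.lattice)
    (h1 : z - w ∉ PP.lattice) (h2 : z + w ∉ PP.lattice) :
    2 * (PP.weierstrassP z - PP.weierstrassP w) * (E1 (z + w) - E1 z - E1 w) =
      PP.derivWeierstrassP z - PP.derivWeierstrassP w := by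
  have a := sig hw (notMem_of_two_mul hz) h1 h2
  have h1' : w - z ∉ PP.lattice := fun h => h1 (by simpa using neg_mem h)
  have h2' : w + z ∉ PP.lattice := by rwa [add_comm]
  have b := sig hz (notMem_of_two_mul hw) h1' h2'
  have e : E1 (w - z) = -E1 (z - w) := by rw [← E1_neg, neg_sub]
  rw [e, add_comm w z] at b
  linear_combination b - a

/-- The chord relation. -/
theorem chord {z w : ℂ} (hz : 2 * z ∉ PP.lattice) (hw : 2 * w ∉ PP.lattice)
    (h1 : z - w ∉ PP.lattice) (h2 : z + w ∉ PP.lattice) :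
    Y z - Y w = 2 * sl z w * (X z - X w) := by
  have h := chord0 hz hw h1 h2
  have hO := Om_ne_zero
  rw [Y, Y, X, X, sl]
  field_simp
  linear_combination -h

/-- the second derivative -/
theorem hasDerivAt_Q {z : ℂ} (hz : 2 * z ∉ PP.lattice) :
    HasDerivAt PP.derivWeierstrassP (6 * PP.weierstrassP z ^ 2 + 2 * cA ℂ * Om ^ 4) z := by
  have hz1 := notMem_of_two_mul hz
  have hQ := Per.Q_ne hz
  have h1 := (differentiableAt_Q hz1).hasDerivAt
  have h2 := hasDerivAt_P hz1
  have h3 : HasDerivAt (fun w => PP.derivWeierstrassP w ^ 2) _ z := h1.pow 2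
  have h4 : HasDerivAt (fun w => 4 * PP.weierstrassP w ^ 3 +
      4 * cA ℂ * Om ^ 4 * PP.weierstrassP w + 4 * cB ℂ * Om ^ 6) _ z :=
    (((h2.pow 3).const_mul 4).add (h2.const_mul (4 * cA ℂ * Om ^ 4))).add_const _
  have h5 : (fun w => PP.derivWeierstrassP w ^ 2) =ᶠ[𝓝 z] (fun w => 4 * PP.weierstrassP w ^ 3 +
      4 * cA ℂ * Om ^ 4 * PP.weierstrassP w + 4 * cB ℂ * Om ^ 6) := by
    filter_upwards [isOpen_compl.mem_nhds hz1] with w hw
    exact diff_eq hw
  have h6 := (h4.congr_of_eventuallyEq h5).unique h3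
  have h7 : deriv PP.derivWeierstrassP z = 6 * PP.weierstrassP z ^ 2 + 2 * cA ℂ * Om ^ 4 := by
    apply mul_left_cancel₀ hQ
    simp only [Nat.cast_ofNat, Nat.add_one_sub_one, pow_one] at h6
    linear_combination -h6 / 2
  rw [← h7]
  exact h1

/-- the duplication formula of `E1` -/
theorem dup {z : ℂ} (hz : 2 * z ∉ PP.lattice) :
    (E1 (2 * z) - 2 * E1 z) * PP.derivWeierstrassP z =
      3 * PP.weierstrassP z ^ 2 + cA ℂ * Om ^ 4 := by
  have hz1 := notMem_of_two_mul hz
  have a1 : Tendsto (fun w => (w - z)⁻¹ * (PP.weierstrassP w - PP.weierstrassP z)) (𝓝[≠] z)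
      (𝓝 (PP.derivWeierstrassP z)) := by
    refine (hasDerivAt_P hz1).tendsto_slope.congr' ?_
    filter_upwards [self_mem_nhdsWithin] with w hw
    rw [slope_def_field, div_eq_inv_mul]
  have a2 : Tendsto (fun w => (w - z)⁻¹ * (PP.derivWeierstrassP w - PP.derivWeierstrassP z))
      (𝓝[≠] z) (𝓝 (6 * PP.weierstrassP z ^ 2 + 2 * cA ℂ * Om ^ 4)) := by
    refine (hasDerivAt_Q hz).tendsto_slope.congr' ?_
    filter_upwards [self_mem_nhdsWithin] with w hw
    rw [slope_def_field, div_eq_inv_mul]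
  have a3 : Tendsto (fun w => E1 (w + z)) (𝓝[≠] z) (𝓝 (E1 (z + z))) := by
    have := tendsto_E1_shift (s := z) (w := -z) (by rw [sub_neg_eq_add, ← two_mul]; exact hz)
    simpa only [sub_neg_eq_add] using this
  have a4 : Tendsto E1 (𝓝[≠] z) (𝓝 (E1 z)) :=
    (continuousAt_E1 hz1).tendsto.mono_left nhdsWithin_le_nhds
  have a5 := (a1.const_mul 2).mul ((a3.sub a4).sub_const (E1 z))
  have a6 : Tendsto (fun w => 2 * ((w - z)⁻¹ * (PP.weierstrassP w - PP.weierstrassP z)) *
      (E1 (w + z) - E1 w - E1 z)) (𝓝[≠] z)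
      (𝓝 (6 * PP.weierstrassP z ^ 2 + 2 * cA ℂ * Om ^ 4)) := by
    refine a2.congr' ?_
    have ev1 : ∀ᶠ w in 𝓝[≠] z, 2 * w ∉ PP.lattice := eventually_mul_notMem two_ne_zero z
    have ev2 := eventually_add_notMem (-z) z
    have ev3 := eventually_add_notMem z z
    filter_upwards [ev1, ev2, ev3] with w b1 b2 b3
    rw [← sub_eq_add_neg] at b2
    have h := chord0 b1 hz b2 b3
    rw [← h]
    ring
  have a7 := tendsto_nhds_unique a5 a6
  rw [← two_mul] at a7
  linear_combination a7 / 2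

/-- the tangent relation -/
theorem tangent {z : ℂ} (hz : 2 * z ∉ PP.lattice) :
    sl z z * Y z = 3 * X z ^ 2 + cA ℂ := by
  have h := dup hz
  have hO := Om_ne_zero
  rw [two_mul z] at h
  rw [sl, Y, X]
  generalize E1 (z + z) = e at h ⊢
  field_simp
  linear_combination h

/-- The third point is on the line through the first two. -/
theorem third_line {u v : ℂ} (hu2 : 2 * u ∉ PP.lattice) (hv : v ∉ PP.lattice)
    (huv : u + v ∉ PP.lattice) (ν : ℂ) (hν : Y u = 2 * sl u v * X u + ν)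
    (e1 : X u + X v + X (u + v) = sl u v ^ 2)
    (e2 : X u * X v + X u * X (u + v) + X v * X (u + v) = cA ℂ - sl u v * ν)
    (e3 : 4 * (X u * X v * X (u + v)) = ν ^ 2 - 4 * cB ℂ) :
    -Y (u + v) = 2 * sl u v * X (u + v) + ν := by
  by_cases hA : 2 * u + v ∈ PP.lattice
  · have h1 : -(u + v) + (2 * u + v) = u := by ring
    have hX := X_add hA (-(u + v))
    have hY := Y_add hA (-(u + v))
    rw [h1, X_neg] at hX
    rw [h1, Y_neg] at hY
    rw [← hX, ← hY, hν]
  by_cases hB : 2 * (u + v) ∈ PP.lattice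
  · have hY0 : Y (u + v) = 0 := by rw [Y, Q_half hB, zero_div]
    have hc := Y_sq huv
    rw [hY0] at hc
    have h1 : (2 * sl u v * X (u + v) + ν) ^ 2 = 0 := by
      linear_combination -hc - 4 * X (u + v) ^ 2 * e1 + 4 * X (u + v) * e2 - e3
    rw [hY0, neg_zero]
    exact (pow_eq_zero_iff two_ne_zero).1 h1 |>.symm
  · have hn : 2 * -(u + v) ∉ PP.lattice := fun h => hB (by
      have := neg_mem h
      have e : -(2 * -(u + v)) = 2 * (u + v) := by ring
      rwa [e] at this)
    have h1 : u - -(u + v) ∉ PP.lattice := fun h => hA (by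
      have e : u - -(u + v) = 2 * u + v := by ring
      rwa [e] at h)
    have h2 : u + -(u + v) ∉ PP.lattice := fun h => hv (by
      have := neg_mem h
      have e : -(u + -(u + v)) = v := by ring
      rwa [e] at this)
    have h := chord hu2 hn h1 h2
    have hs : sl u (-(u + v)) = sl u v := by
      have e : u + -(u + v) = -v := by ring
      rw [sl, sl, e, E1_neg, E1_neg]
      ring
    rw [hs, X_neg, Y_neg] at h
    linear_combination hν - h

/-- The relations of a chord. -/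
theorem line_chord {u v : ℂ} (hu2 : 2 * u ∉ PP.lattice) (hv2 : 2 * v ∉ PP.lattice)
    (hd : u - v ∉ PP.lattice) (huv : u + v ∉ PP.lattice) (hX : X u ≠ X v) :
    -Y (u + v) = 2 * sl u v * X (u + v) + (Y u - 2 * sl u v * X u) ∧
    X u * X v + X u * X (u + v) + X v * X (u + v) =
      cA ℂ - sl u v * (Y u - 2 * sl u v * X u) ∧
    4 * (X u * X v * X (u + v)) = (Y u - 2 * sl u v * X u) ^ 2 - 4 * cB ℂ := by
  have hu := notMem_of_two_mul hu2
  have hv := notMem_of_two_mul hv2
  obtain ⟨ν, hν⟩ : ∃ ν, ν = Y u - 2 * sl u v * X u := ⟨_, rfl⟩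
  rw [← hν]
  have l1 : Y u = 2 * sl u v * X u + ν := by rw [hν]; ring
  have l2 : Y v = 2 * sl u v * X v + ν := by
    have h := chord hu2 hv2 hd huv
    linear_combination l1 - h
  have c1 := Y_sq hu
  have c2 := Y_sq hv
  have e1 := sl_sq hu hv huv
  have e2 : X u * X v + X u * X (u + v) + X v * X (u + v) = cA ℂ - sl u v * ν := by
    have hX' : X u - X v ≠ 0 := sub_ne_zero.2 hX
    apply mul_left_cancel₀ hX'
    rw [l1] at c1
    rw [l2] at c2
    linear_combination (1 / 4) * c1 - (1 / 4) * c2 + (X u ^ 2 - X v ^ 2) * e1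
  have e3 : 4 * (X u * X v * X (u + v)) = ν ^ 2 - 4 * cB ℂ := by
    have c1' := c1
    rw [l1] at c1'
    linear_combination -c1' - 4 * X u ^ 2 * e1 + 4 * X u * e2
  exact ⟨third_line hu2 hv huv ν l1 e1 e2 e3, e2, e3⟩

/-- The relation of a tangent. -/
theorem line_tangent {u : ℂ} (hu2 : 2 * u ∉ PP.lattice) :
    -Y (u + u) = 2 * sl u u * X (u + u) + (Y u - 2 * sl u u * X u) := by
  have hu := notMem_of_two_mul hu2
  have huu : u + u ∉ PP.lattice := by rwa [← two_mul]
  obtain ⟨ν, hν⟩ : ∃ ν, ν = Y u - 2 * sl u u * X u := ⟨_, rfl⟩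
  rw [← hν]
  have l1 : Y u = 2 * sl u u * X u + ν := by rw [hν]; ring
  have c1 := Y_sq hu
  have e1 := sl_sq hu hu huu
  have hs := tangent hu2
  have e2 : X u * X u + X u * X (u + u) + X u * X (u + u) = cA ℂ - sl u u * ν := by
    rw [l1] at hs
    linear_combination hs + 2 * X u * e1
  have e3 : 4 * (X u * X u * X (u + u)) = ν ^ 2 - 4 * cB ℂ := by
    have c1' := c1
    rw [l1] at c1'
    linear_combination -c1' - 4 * X u ^ 2 * e1 + 4 * X u * e2
  exact third_line hu2 hu huu ν l1 e1 e2 e3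

end Ell

end

end Pool.Agent.Lib.MP_1a91b9_nuT
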