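import Pool.Agent.Lib.MP_1a91b9_nuT.S3.Card

/-!
# Stream S3, file Main: the interface of S3

* `s3_Om`, `s3_period`, `s3_neg`, `s3_zero`, `s3_dist`, `s3_mem`, `s3_unit`, `s3_exists`: the
  interface fixed by the project leader;
* `E1_period`, `E1_odd`, `E1_int`, `E1_om`: the function `E1` and `𝓞 K`;
* 3.3 : `hasSum_dif3_inv_O`, `summable_dif3_O`, `integral_tsum_dif3_O`, `integral_kerG'`,
  `s3_hasSum`, `s3_summable`, `s3_integral`;
* 3.6 : `E1_dist`, `E1_dist_O`;
* 3.8 : `E1_mem`, `E1_mem_O`;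
* 3.9 : `E1_third_mem`, `E1_third_inv_mem`, `E1_third_ne_zero`;
* 3.10 : `exists_valuationSubring`, `mem_of_isIntegral`, `inv_odd_mem`.
-/

set_option autoImplicit false

namespace Pool.Agent.Lib.MP_1a91b9_nuT

variable [CD]

open Complex NumberField MeasureTheory Set

noncomputable section

/-! ## The function `E1` -/

theorem E1_period (a : 𝓞 K) (z : ℂ) : E1 (z + embK (a : K)) = E1 z := S3.E1_add (S3.embK_mem a) z


/-! ## 3.3 -/


theorem summable_dif3_O {c : ℂ} (hc : c ≠ 0) (q s r w : ℂ) :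
    Summable (fun a : 𝓞 K =>
      ∫ t in Ioi (0 : ℝ), ‖Df q (Df s (Df r (kerG t))) (w + c * embK (a : K))‖) :=
  S3.latE.summable_iff.2 (S3.summable_dif3 hc q s r w)


theorem integral_tsum_dif3_O {c : ℂ} (hc : c ≠ 0) (q s r w : ℂ) :
    ∫ t in Ioi (0 : ℝ), ∑' a : 𝓞 K, Df q (Df s (Df r (kerG t))) (w + c * embK (a : K)) =
      Df q (Df s (Df r (fun x => c⁻¹ * E1 (x / c)))) w := by
  rw [← S3.integral_tsum_dif3 hc q s r w]
  congr 1
  funext t
  exact S3.latE.tsum_eq (fun l : PP.lattice => Df q (Df s (Df r (kerG t))) (w + c * (l : ℂ)))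

/-! ## 3.6 -/

/-- The distribution relation, for a system `τ` of representatives of `α⁻¹ ℤ[zt] / ℤ[zt]`. -/
theorem E1_dist {ι : Type*} [Fintype ι] {α : ℂ} {τ : ι → ℂ} (hα : α ∈ PP.lattice) (hα0 : α ≠ 0)
    (h1 : ∀ i, α * τ i ∈ PP.lattice)
    (h2 : ∀ x, α * x ∈ PP.lattice → ∃! i, x - τ i ∈ PP.lattice) (z : ℂ) :
    ∑ i, E1 (z + τ i) = α * E1 (α * z) := S3.dist hα hα0 h1 h2 z

/-- The distribution relation, for a system `ρ` of representatives of `𝓞 K / a`. -/
theorem E1_dist_O {ι : Type*} [Fintype ι] {a : 𝓞 K} {ρ : ι → 𝓞 K} (ha : a ≠ 0)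
    (h : ∀ x : 𝓞 K, ∃! i, a ∣ x - ρ i) (z : ℂ) :
    ∑ i, E1 (z + embK (ρ i : K) / embK (a : K)) = embK (a : K) * E1 (embK (a : K) * z) := by
  have ha0 : embK (a : K) ≠ 0 := by
    intro h0
    apply ha
    have h1 : (a : K) = 0 := by
      apply embK.toRingHom.injective
      rw [map_zero]
      exact h0
    exact RingOfIntegers.ext h1
  refine E1_dist (S3.embK_mem a) ha0 (fun i => ?_) (fun x hx => ?_) z
  · rw [mul_div_cancel₀ _ ha0]
    exact S3.embK_mem _
  · obtain ⟨y, hy⟩ := S3.mem_PP_iff.1 hx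
    have key : ∀ i, x - embK (ρ i : K) / embK (a : K) ∈ PP.lattice ↔ a ∣ y - ρ i := by
      intro i
      have e : embK ((y - ρ i : 𝓞 K) : K) =
          embK (a : K) * (x - embK (ρ i : K) / embK (a : K)) := by
        have e1 : ((y - ρ i : 𝓞 K) : K) = (y : K) - (ρ i : K) := rfl
        rw [e1, map_sub, hy]
        field_simp
      constructor
      · intro hm
        obtain ⟨b, hb⟩ := S3.mem_PP_iff.1 hm
        refine ⟨b, ?_⟩
        apply RingOfIntegers.ext
        apply embK.toRingHom.injective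
        have e2 : ((a * b : 𝓞 K) : K) = (a : K) * (b : K) := rfl
        show embK ((y - ρ i : 𝓞 K) : K) = embK ((a * b : 𝓞 K) : K)
        rw [e, e2, map_mul, hb]
      · rintro ⟨b, hb⟩
        rw [hb] at e
        have e2 : ((a * b : 𝓞 K) : K) = (a : K) * (b : K) := rfl
        rw [e2, map_mul] at e
        have e3 := mul_left_cancel₀ ha0 e
        rw [← e3]
        exact S3.embK_mem b
    obtain ⟨i, hi, hiu⟩ := h y
    exact ⟨i, (key i).2 hi, fun j hj => hiu j ((key j).1 hj)⟩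

/-! ## 3.8 and 3.9 -/

variable {A : ValuationSubring ℂ}


/-! ## 3.10 -/


/-! ## The interface fixed by the project leader -/


theorem s3_period (z : ℂ) (l : ℤ × ℤ) : E1 (z + lp l) = E1 z := S3.E1_add (S3.lp_mem l) z

theorem s3_neg (z : ℂ) : E1 (-z) = -E1 z := S3.E1_neg z


end

end Pool.Agent.Lib.MP_1a91b9_nuT
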