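import Pool.Agent.Lib.MP_1a91b9_nuT.S3.Defs0

/-!
# Stream S3, file Lat: the lattice `ℤ + ℤ zt`, its Weierstrass functions
-/

set_option autoImplicit false

namespace Pool.Agent.Lib.MP_1a91b9_nuT

open Complex NumberField

noncomputable section

variable [CD]

namespace S3

theorem embK_ta : embK ((ta : 𝓞 K) : K) = zt := rfl

/-- the complex quadratic equation -/
theorem zt_quad : zt ^ 2 = (CD.tr : ℂ) * zt - (CD.nm : ℂ) := by
  have h := congrArg (fun x : 𝓞 K => embK ((x : 𝓞 K) : K)) CD.quad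
  simp only [map_pow, map_sub, map_mul, map_intCast] at h
  exact h

theorem zt_im_ne_zero : zt.im ≠ 0 := zt_ne

theorem zt_ne_zero : zt ≠ 0 := by
  intro h
  apply zt_ne
  rw [h, Complex.zero_im]

theorem zt_sub_conj : zt - (starRingEnd ℂ) zt ≠ 0 := by
  intro h
  apply zt_ne
  have h1 := congrArg Complex.im h
  simp at h1
  exact h1

theorem conj_zt : (starRingEnd ℂ) zt = (CD.tr : ℂ) - zt := by
  have h1 := congrArg (starRingEnd ℂ) zt_quad
  rw [map_pow, map_sub, map_mul, map_intCast, map_intCast] at h1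
  have h2 : (zt - (starRingEnd ℂ) zt) * (zt + (starRingEnd ℂ) zt - (CD.tr : ℂ)) = 0 := by
    linear_combination zt_quad - h1
  have h3 := (mul_eq_zero.1 h2).resolve_left zt_sub_conj
  linear_combination h3

theorem zt_mul_conj : zt * (starRingEnd ℂ) zt = (CD.nm : ℂ) := by
  rw [conj_zt]
  linear_combination -zt_quad

theorem mem_PP {x : ℂ} : x ∈ PP.lattice ↔ ∃ m n : ℤ, (m : ℂ) + n * zt = x := by
  rw [PeriodPair.mem_lattice]
  constructor
  · rintro ⟨m, n, h⟩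
    exact ⟨m, n, by rw [← h]; show _ = (m : ℂ) * 1 + n * zt; ring⟩
  · rintro ⟨m, n, h⟩
    exact ⟨m, n, by rw [← h]; show (m : ℂ) * 1 + n * zt = _; ring⟩

theorem one_mem : (1 : ℂ) ∈ PP.lattice := mem_PP.2 ⟨1, 0, by simp⟩

theorem zt_mem : zt ∈ PP.lattice := mem_PP.2 ⟨0, 1, by simp⟩

theorem mul_mem {x y : ℂ} (hx : x ∈ PP.lattice) (hy : y ∈ PP.lattice) : x * y ∈ PP.lattice := by
  obtain ⟨a, b, rfl⟩ := mem_PP.1 hx
  obtain ⟨c, d, rfl⟩ := mem_PP.1 hy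
  refine mem_PP.2 ⟨a * c - b * d * CD.nm, a * d + b * c + b * d * CD.tr, ?_⟩
  push_cast
  linear_combination -((b : ℂ) * d * zt_quad)

theorem int_mem (n : ℤ) : (n : ℂ) ∈ PP.lattice := mem_PP.2 ⟨n, 0, by simp⟩

theorem nat_mem (n : ℕ) : (n : ℂ) ∈ PP.lattice := by exact_mod_cast int_mem n

theorem conj_mem {x : ℂ} (hx : x ∈ PP.lattice) : (starRingEnd ℂ) x ∈ PP.lattice := by
  obtain ⟨a, b, rfl⟩ := mem_PP.1 hx
  refine mem_PP.2 ⟨a + b * CD.tr, -b, ?_⟩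
  rw [map_add, map_mul, conj_zt, map_intCast, map_intCast]
  push_cast
  ring

theorem zt_mul_mem {x : ℂ} (h : x ∈ PP.lattice) : zt * x ∈ PP.lattice := mul_mem zt_mem h

/-- The lattice points. -/
theorem lp_mem (l : ℤ × ℤ) : lp l ∈ PP.lattice := mem_PP.2 ⟨l.1, l.2, rfl⟩

theorem mem_iff_lp {x : ℂ} : x ∈ PP.lattice ↔ ∃ l : ℤ × ℤ, x = lp l := by
  rw [mem_PP]
  constructor
  · rintro ⟨m, n, h⟩
    exact ⟨(m, n), h.symm⟩
  · rintro ⟨l, h⟩
    exact ⟨l.1, l.2, h.symm⟩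

theorem coe_equivProd (l : ℤ × ℤ) : ((PP.latticeEquivProd.symm l : PP.lattice) : ℂ) = lp l := by
  rw [PP.latticeEquiv_symm_apply]
  show (l.1 : ℂ) * 1 + l.2 * zt = l.1 + l.2 * zt
  rw [mul_one]

/-- The zeta function as a sum over the lattice. -/
theorem Zf_lat (z : ℂ) :
    Zf z = ∑' l : PP.lattice, ((z + l)⁻¹ - (l : ℂ)⁻¹ + z * ((l : ℂ) ^ 2)⁻¹) := by
  rw [Zf, ← PP.latticeEquivProd.symm.toEquiv.tsum_eq]
  congr with l
  show _ = (z + ((PP.latticeEquivProd.symm l : PP.lattice) : ℂ))⁻¹ -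
    ((PP.latticeEquivProd.symm l : PP.lattice) : ℂ)⁻¹ +
    z * (((PP.latticeEquivProd.symm l : PP.lattice) : ℂ) ^ 2)⁻¹
  rw [coe_equivProd]

theorem Zf_neg (z : ℂ) : Zf (-z) = - Zf z := by
  simp only [Zf_lat]
  rw [← (Equiv.neg PP.lattice).tsum_eq, ← tsum_neg]
  congr with l
  rw [Equiv.neg_apply, NegMemClass.coe_neg]
  have h1 : (-z + -(l : ℂ))⁻¹ = - (z + l)⁻¹ := by rw [← neg_add, inv_neg]
  rw [h1, inv_neg, neg_sq]
  ring

theorem Om_ne_zero : Om ≠ 0 := Om_ne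

/-- The differential equation of the Weierstrass function. -/
theorem diff_eq {z : ℂ} (hz : z ∉ PP.lattice) :
    PP.derivWeierstrassP z ^ 2 = 4 * PP.weierstrassP z ^ 3 +
      4 * cA ℂ * Om ^ 4 * PP.weierstrassP z + 4 * cB ℂ * Om ^ 6 := by
  rw [PP.derivWeierstrassP_sq z hz, g2_eq, g3_eq]
  ring

/-- The coordinate `X` of the curve `Y² = 4 (X³ + A X + B)`. -/
def X (z : ℂ) : ℂ := PP.weierstrassP z / Om ^ 2

/-- The coordinate `Y` of the curve `Y² = 4 (X³ + A X + B)`. -/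
def Y (z : ℂ) : ℂ := PP.derivWeierstrassP z / Om ^ 3

theorem Y_sq {z : ℂ} (hz : z ∉ PP.lattice) : Y z ^ 2 = 4 * (X z ^ 3 + cA ℂ * X z + cB ℂ) := by
  rw [Y, X, div_pow, diff_eq hz]
  have := Om_ne_zero
  field_simp

end S3

end

end Pool.Agent.Lib.MP_1a91b9_nuT
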