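import Pool.Agent.Lib.MP_1a91b9_nuT.S3.Inj

/-!
# Stream S3, file Dist: the distribution relation of `E1`
-/

set_option autoImplicit false

namespace Pool.Agent.Lib.MP_1a91b9_nuT.S3

open Complex Filter Topology

noncomputable section

variable [CD]

section Reps

variable {ι : Type*} {α : ℂ} {τ : ι → ℂ}

theorem exists_shift (h1 : ∀ i, α * τ i ∈ PP.lattice)
    (h2 : ∀ x, α * x ∈ PP.lattice → ∃! i, x - τ i ∈ PP.lattice) {x : ℂ}
    (hx : α * x ∈ PP.lattice) (sg : ℂ) (hsg : sg = 1 ∨ sg = -1) :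
    ∃ σ : ι → ι, Function.Bijective σ ∧ ∀ i, (x + sg * τ i) - τ (σ i) ∈ PP.lattice := by
  have hm : ∀ i, α * (x + sg * τ i) ∈ PP.lattice := by
    intro i
    rcases hsg with rfl | rfl
    · rw [one_mul, mul_add]
      exact add_mem hx (h1 i)
    · have e : α * (x + -1 * τ i) = α * x - α * τ i := by ring
      rw [e]
      exact sub_mem hx (h1 i)
  choose σ hσ hσu using fun i => h2 _ (hm i)
  refine ⟨σ, ⟨?_, ?_⟩, hσ⟩
  · intro i j hij
    have e1 := hσ i
    have e2 := hσ j
    simp only at e1 e2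
    rw [hij] at e1
    have e3 := sub_mem e1 e2
    have e4 : x + sg * τ i - τ (σ j) - (x + sg * τ j - τ (σ j)) = sg * (τ i - τ j) := by ring
    rw [e4] at e3
    have e5 : τ i - τ j ∈ PP.lattice := by
      rcases hsg with rfl | rfl
      · rwa [one_mul] at e3
      · have := neg_mem e3
        have e6 : -(-1 * (τ i - τ j)) = τ i - τ j := by ring
        rwa [e6] at this
    obtain ⟨k, _, hk⟩ := h2 (τ i) (h1 i)
    rw [hk i (by simp only [sub_self]; exact zero_mem _), hk j e5]
  · intro j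
    have hj : α * (sg * (τ j - x)) ∈ PP.lattice := by
      have e0 : α * (τ j - x) ∈ PP.lattice := by
        rw [mul_sub]
        exact sub_mem (h1 j) hx
      rcases hsg with rfl | rfl
      · rwa [one_mul]
      · have := neg_mem e0
        have e6 : -(α * (τ j - x)) = α * (-1 * (τ j - x)) := by ring
        rwa [e6] at this
    obtain ⟨i, hi, _⟩ := h2 _ hj
    refine ⟨i, ?_⟩
    refine (hσu i j ?_).symm
    simp only at hi ⊢
    have hss : sg * sg = 1 := by rcases hsg with rfl | rfl <;> norm_num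
    have e7 : x + sg * τ i - τ j = - (sg * (sg * (τ j - x) - τ i)) := by
      linear_combination (τ j - x) * hss
    rw [e7]
    refine neg_mem ?_
    rcases hsg with rfl | rfl
    · rw [one_mul]
      exact hi
    · have e8 : (-1 : ℂ) * (-1 * (τ j - x) - τ i) = -(-1 * (τ j - x) - τ i) := by ring
      rw [e8]
      exact neg_mem hi

theorem E1_congr {x y : ℂ} (h : x - y ∈ PP.lattice) : E1 x = E1 y := by
  have := E1_add h y
  rwa [add_sub_cancel] at this

theorem P_congr {x y : ℂ} (h : x - y ∈ PP.lattice) : PP.weierstrassP x = PP.weierstrassP y := by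
  have := P_add h y
  rwa [add_sub_cancel] at this

variable [Fintype ι]

theorem sum_E1_zero (h1 : ∀ i, α * τ i ∈ PP.lattice)
    (h2 : ∀ x, α * x ∈ PP.lattice → ∃! i, x - τ i ∈ PP.lattice) : ∑ i, E1 (τ i) = 0 := by
  obtain ⟨σ, hσ, hσ2⟩ := exists_shift h1 h2 (x := 0) (by simp) (-1) (Or.inr rfl)
  have e1 : ∑ i, E1 (τ (σ i)) = ∑ i, E1 (τ i) :=
    (Equiv.ofBijective σ hσ).sum_comp (fun i => E1 (τ i))
  have e2 : ∀ i, E1 (τ (σ i)) = - E1 (τ i) := by
    intro i
    have := E1_congr (hσ2 i)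
    rw [← this, zero_add, neg_one_mul, E1_neg]
  simp_rw [e2] at e1
  rw [Finset.sum_neg_distrib] at e1
  have e3 : 2 * ∑ i, E1 (τ i) = 0 := by linear_combination -e1
  simpa using e3

theorem sum_E1_shift (h1 : ∀ i, α * τ i ∈ PP.lattice)
    (h2 : ∀ x, α * x ∈ PP.lattice → ∃! i, x - τ i ∈ PP.lattice) {z : ℂ}
    (hz : α * z ∈ PP.lattice) : ∑ i, E1 (z + τ i) = 0 := by
  obtain ⟨σ, hσ, hσ2⟩ := exists_shift h1 h2 hz 1 (Or.inl rfl)
  rw [← sum_E1_zero h1 h2, ← (Equiv.ofBijective σ hσ).sum_comp (fun i => E1 (τ i))]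
  refine Finset.sum_congr rfl fun i _ => ?_
  have := E1_congr (hσ2 i)
  rw [one_mul] at this
  exact this

theorem sum_E1_neg (h1 : ∀ i, α * τ i ∈ PP.lattice)
    (h2 : ∀ x, α * x ∈ PP.lattice → ∃! i, x - τ i ∈ PP.lattice) (z : ℂ) :
    ∑ i, E1 (-z + τ i) = - ∑ i, E1 (z + τ i) := by
  obtain ⟨σ, hσ, hσ2⟩ := exists_shift h1 h2 (x := 0) (by simp) (-1) (Or.inr rfl)
  rw [← (Equiv.ofBijective σ hσ).sum_comp (fun i => E1 (-z + τ i)), ← Finset.sum_neg_distrib]
  refine Finset.sum_congr rfl fun i _ => ?_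
  rw [← E1_neg]
  refine (E1_congr ?_).symm
  have := hσ2 i
  have e : -(z + τ i) - (-z + τ (Equiv.ofBijective σ hσ i)) = 0 + -1 * τ i - τ (σ i) := by
    rw [Equiv.ofBijective_apply]
    ring
  rw [e]
  exact this

end Reps

section Main

variable {ι : Type*} [Fintype ι] {α : ℂ} {τ : ι → ℂ}

/-- The holomorphic function of the distribution relation. -/
def dg (α : ℂ) (τ : ι → ℂ) (z : ℂ) : ℂ := ∑ i, Zf (z + τ i) - α * Zf (α * z)

/-- Its derivative. -/
def dh (α : ℂ) (τ : ι → ℂ) (z : ℂ) : ℂ :=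
  - ∑ i, PP.weierstrassP (z + τ i) + α ^ 2 * PP.weierstrassP (α * z)

omit [Fintype ι] in
theorem notMem_shift (hα : α ∈ PP.lattice) (h1 : ∀ i, α * τ i ∈ PP.lattice) {z : ℂ}
    (hz : α * z ∉ PP.lattice) (i : ι) : z + τ i ∉ PP.lattice := by
  intro h
  apply hz
  have := sub_mem (mul_mem hα h) (h1 i)
  have e : α * (z + τ i) - α * τ i = α * z := by ring
  rwa [e] at this

theorem hasDerivAt_dg (hα : α ∈ PP.lattice) (h1 : ∀ i, α * τ i ∈ PP.lattice) {z : ℂ}
    (hz : α * z ∉ PP.lattice) : HasDerivAt (dg α τ) (dh α τ z) z := by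
  have a1 : HasDerivAt (fun z => ∑ i, Zf (z + τ i)) (∑ i, - PP.weierstrassP (z + τ i)) z := by
    refine HasDerivAt.fun_sum fun i _ => ?_
    exact (hasDerivAt_Zf (notMem_shift hα h1 hz i)).comp_add_const z (τ i)
  have a2 : HasDerivAt (fun z => Zf (α * z)) (- PP.weierstrassP (α * z) * α) z := by
    have b1 : HasDerivAt (fun z : ℂ => α * z) α z := by
      simpa using (hasDerivAt_id z).const_mul α
    exact (hasDerivAt_Zf hz).comp z b1
  have a3 := a1.sub (a2.const_mul α)
  refine a3.congr_deriv ?_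
  rw [dh, Finset.sum_neg_distrib]
  ring

theorem dh_add (hα : α ∈ PP.lattice) {l : ℂ} (hl : l ∈ PP.lattice) (z : ℂ) :
    dh α τ (z + l) = dh α τ z := by
  rw [dh, dh, mul_add, P_add (mul_mem hα hl)]
  congr 2
  refine Finset.sum_congr rfl fun i _ => ?_
  have e : z + l + τ i = z + τ i + l := by ring
  rw [e, P_add hl]

theorem dg_add (hα : α ∈ PP.lattice) {l : ℂ} (hl : l ∈ PP.lattice) (z : ℂ) :
    dg α τ (z + l) = dg α τ z + e2E * (Fintype.card ι - α ^ 2) * l +
      etaE * (Fintype.card ι - α * (starRingEnd ℂ) α) * (starRingEnd ℂ) l := by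
  rw [dg, dg, mul_add, Zf_add (mul_mem hα hl)]
  have e : ∑ i, Zf (z + l + τ i) = ∑ i, Zf (z + τ i) +
      (Fintype.card ι : ℂ) * (e2E * l + etaE * (starRingEnd ℂ) l) := by
    have e2 : ∀ i, Zf (z + l + τ i) = Zf (z + τ i) + (e2E * l + etaE * (starRingEnd ℂ) l) := by
      intro i
      have e : z + l + τ i = z + τ i + l := by ring
      rw [e, Zf_add hl]
    simp_rw [e2]
    rw [Finset.sum_add_distrib, Finset.sum_const, nsmul_eq_mul, Finset.card_univ]
  rw [e, map_mul]
  ring

/-- The two double poles cancel. -/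
theorem tendsto_cancel (hα0 : α ≠ 0) : Tendsto (fun u => - PP.weierstrassP u +
    α ^ 2 * PP.weierstrassP (α * u)) (𝓝[≠] 0) (𝓝 0) := by
  have a4 : Tendsto (fun z => Pr z * (z ^ 0)⁻¹) (𝓝[≠] 0) (𝓝 0) := tendsto_Pr (by norm_num)
  have b1 : Tendsto (fun w : ℂ => α * w) (𝓝[≠] 0) (𝓝[≠] 0) := by
    refine tendsto_nhdsWithin_iff.2 ⟨?_, ?_⟩
    · have h2 : ContinuousAt (fun w : ℂ => α * w) 0 := by fun_prop
      have h3 := h2.tendsto
      rw [mul_zero] at h3
      exact h3.mono_left nhdsWithin_le_nhds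
    · filter_upwards [self_mem_nhdsWithin] with w hw
      exact mul_ne_zero hα0 hw
  have a5 := (a4.comp b1).const_mul (α ^ 2)
  have a6 := a4.neg.add a5
  rw [mul_zero, neg_zero, add_zero] at a6
  refine a6.congr' ?_
  filter_upwards [self_mem_nhdsWithin] with z hz
  have hz0 : z ≠ 0 := hz
  simp only [Function.comp_apply]
  rw [P_eq z, P_eq (α * z)]
  field_simp
  ring

theorem tendsto_dh (hα0 : α ≠ 0)
    (h2 : ∀ x, α * x ∈ PP.lattice → ∃! i, x - τ i ∈ PP.lattice) {s : ℂ}
    (hs : α * s ∈ PP.lattice) : ∃ a, Tendsto (dh α τ) (𝓝[≠] s) (𝓝 a) := by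
  classical
  have hs' : α * (-s) ∈ PP.lattice := by
    rw [mul_neg]
    exact neg_mem hs
  obtain ⟨k, hk, hku⟩ := h2 _ hs'
  simp only at hk hku
  have hk' : s + τ k ∈ PP.lattice := by
    have := neg_mem hk
    have e : -(-s - τ k) = s + τ k := by ring
    rwa [e] at this
  have c1 := tendsto_translate (l := s) (tendsto_cancel hα0)
  have c2 : Tendsto (fun z => ∑ i ∈ Finset.univ.erase k, PP.weierstrassP (z + τ i)) (𝓝[≠] s)
      (𝓝 (∑ i ∈ Finset.univ.erase k, PP.weierstrassP (s + τ i))) := by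
    refine tendsto_finsetSum _ fun i hi => ?_
    have hne : s + τ i ∉ PP.lattice := by
      intro h
      have := neg_mem h
      have e : -(s + τ i) = -s - τ i := by ring
      rw [e] at this
      exact (Finset.mem_erase.1 hi).1 (hku i this)
    have h5 : ContinuousAt (fun z => PP.weierstrassP (z + τ i)) s :=
      ContinuousAt.comp (g := PP.weierstrassP) (f := fun z => z + τ i) (continuousAt_P hne)
        (by fun_prop)
    exact h5.tendsto.mono_left nhdsWithin_le_nhds
  refine ⟨_, (c1.sub c2).congr fun z => ?_⟩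
  rw [dh, ← Finset.add_sum_erase Finset.univ _ (Finset.mem_univ k)]
  have e1 : PP.weierstrassP (z + τ k) = PP.weierstrassP (z - s) := by
    refine P_congr ?_
    have e : z + τ k - (z - s) = s + τ k := by ring
    rwa [e]
  have e2 : PP.weierstrassP (α * (z - s)) = PP.weierstrassP (α * z) := by
    refine P_congr ?_
    have e : α * (z - s) - α * z = -(α * s) := by ring
    rw [e]
    exact neg_mem hs
  rw [e1, e2]
  ring

/-- INTERFACE 3.6, the distribution relation. -/
theorem dist (hα : α ∈ PP.lattice) (hα0 : α ≠ 0) (h1 : ∀ i, α * τ i ∈ PP.lattice)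
    (h2 : ∀ x, α * x ∈ PP.lattice → ∃! i, x - τ i ∈ PP.lattice) (z : ℂ) :
    ∑ i, E1 (z + τ i) = α * E1 (α * z) := by
  by_cases hz : α * z ∈ PP.lattice
  · rw [sum_E1_shift h1 h2 hz, E1_coe hz, mul_zero]
  set S : Set ℂ := {w : ℂ | α * w ∈ PP.lattice} with hSdef
  have hS : ∀ z : ℂ, ∀ᶠ w in 𝓝[≠] z, w ∉ S := fun z => eventually_mul_notMem hα0 z
  -- the derivative is constant
  have hdiff : ∀ z ∉ S, DifferentiableAt ℂ (dh α τ) z := by
    intro z hz
    have a1 : DifferentiableAt ℂ (fun z => ∑ i, PP.weierstrassP (z + τ i)) z := by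
      refine DifferentiableAt.fun_sum fun i _ => ?_
      exact ((hasDerivAt_P (notMem_shift hα h1 hz i)).comp_add_const z (τ i)).differentiableAt
    have a2 : DifferentiableAt ℂ (fun z => PP.weierstrassP (α * z)) z := by
      have b2 : DifferentiableAt ℂ PP.weierstrassP (α * z) := (hasDerivAt_P hz).differentiableAt
      exact b2.comp z (by fun_prop)
    exact a1.neg.add (a2.const_mul _)
  have hlim : ∀ s ∈ S, Tendsto (fun z => (z - s) * dh α τ z) (𝓝[≠] s) (𝓝 0) := by
    intro s hs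
    obtain ⟨a, ha⟩ := tendsto_dh hα0 h2 hs
    exact tendsto_mul_zero ha
  obtain ⟨b, hb⟩ := liouville hS hdiff hlim (fun l hl z => dh_add hα hl z)
  have hcount : S.Countable :=
    countable_lat.preimage_of_injOn (f := fun w : ℂ => α * w)
      (fun x _ y _ h => mul_left_cancel₀ hα0 h)
  have hSo : IsOpen Sᶜ := isOpen_of_iso hS
  have hd : ∀ w ∈ Sᶜ, HasDerivAt (fun z => dg α τ z - b * z) 0 w := by
    intro w hw
    have c1 := hasDerivAt_dg hα h1 hw
    rw [hb w hw] at c1
    have c2 := c1.sub ((hasDerivAt_id w).const_mul b)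
    refine c2.congr_deriv ?_
    ring
  have hconst : ∀ x ∈ Sᶜ, ∀ y ∈ Sᶜ, dg α τ x - b * x = dg α τ y - b * y := by
    intro x hx y hy
    exact hSo.is_const_of_deriv_eq_zero (f := fun z => dg α τ z - b * z)
      (isPreconnected_compl_of_countable hcount)
      (fun w hw => (hd w hw).differentiableAt.differentiableWithinAt)
      (fun w hw => (hd w hw).deriv) hx hy
  set c : ℂ := etaE * (Fintype.card ι - α * (starRingEnd ℂ) α) with hc
  set b' : ℂ := b - e2E * (Fintype.card ι - α ^ 2) with hb'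
  have hper : ∀ l ∈ PP.lattice, b' * l = c * (starRingEnd ℂ) l := by
    intro l hl
    have hzl : z + l ∈ Sᶜ := by
      intro h
      apply hz
      have h' : α * (z + l) ∈ PP.lattice := h
      have := sub_mem h' (mul_mem hα hl)
      have e : α * (z + l) - α * l = α * z := by ring
      rwa [e] at this
    have c1 := hconst (z + l) hzl z hz
    rw [dg_add hα hl, ← hc] at c1
    rw [hb']
    linear_combination -c1
  have hb1 := hper 1 one_mem
  have hb2 := hper zt zt_mem
  rw [map_one] at hb1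
  have hc0 : c = 0 := by
    have e1 : c * (zt - (starRingEnd ℂ) zt) = 0 := by linear_combination hb2 - zt * hb1
    refine (mul_eq_zero.1 e1).resolve_right ?_
    exact sub_ne_zero.2 (fun h => zt_ne (Complex.conj_eq_iff_im.1 h.symm))
  have hb0 : b' = 0 := by linear_combination hb1 + hc0
  -- the odd constant function
  have hval : ∀ x, ∑ i, E1 (x + τ i) - α * E1 (α * x) =
      dg α τ x - b * x + b' * x - e2E * ∑ i, τ i - etaE * ∑ i, (starRingEnd ℂ) (τ i) -
        c * (starRingEnd ℂ) x := by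
    intro x
    rw [dg, hc, hb']
    simp only [E1, map_add, map_mul]
    rw [Finset.sum_sub_distrib, Finset.sum_sub_distrib, ← Finset.mul_sum, ← Finset.mul_sum,
      Finset.sum_add_distrib, Finset.sum_add_distrib, Finset.sum_const, Finset.sum_const,
      nsmul_eq_mul, nsmul_eq_mul, Finset.card_univ]
    ring
  have hzn : -z ∈ Sᶜ := by
    intro h
    apply hz
    have h' : α * (-z) ∈ PP.lattice := h
    have := neg_mem h'
    rwa [mul_neg, neg_neg] at this
  have f1 := hval z
  have f2 := hval (-z)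
  have f3 := hconst z hz (-z) hzn
  rw [sum_E1_neg h1 h2, mul_neg, E1_neg] at f2
  rw [hb0, hc0] at f1 f2
  have f4 : 2 * (∑ i, E1 (z + τ i) - α * E1 (α * z)) = 0 := by
    linear_combination f1 - f2 + f3
  have f5 : ∑ i, E1 (z + τ i) - α * E1 (α * z) = 0 := by
    rcases mul_eq_zero.1 f4 with h | h
    · norm_num at h
    · exact h
  linear_combination f5

end Main

end

end Pool.Agent.Lib.MP_1a91b9_nuT.S3
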