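import Pool.Agent.Lib.MP_1a91b9_nuT.S3.Grp

/-!
# Stream S3, file Val: multiples of torsion points
-/

set_option autoImplicit false

namespace Pool.Agent.Lib.MP_1a91b9_nuT.S3

variable [CD]

open Complex

noncomputable section

variable {A : ValuationSubring ℂ}

theorem int_mem_A (n : ℤ) : (n : ℂ) ∈ A := by
  have := intCast_mem A.toSubring n
  exact this

theorem two_mem : (2 : ℂ) ∈ A := by
  have h := int_mem_A (A := A) 2
  exact_mod_cast h

theorem v_int_le (n : ℤ) : A.valuation (n : ℂ) ≤ 1 := (A.valuation_le_one_iff _).2 (int_mem_A n)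

theorem X_add {l : ℂ} (hl : l ∈ PP.lattice) (z : ℂ) : X (z + l) = X z := Ell.X_add hl z

theorem mul_int_mem {z : ℂ} (hz : z ∈ PP.lattice) (n : ℤ) : (n : ℂ) * z ∈ PP.lattice :=
  mul_mem (int_mem n) hz

theorem notMem_mul {m : ℕ} {z : ℂ} (hmz : (m : ℂ) * z ∈ PP.lattice)
    (hz : z ∉ PP.lattice) {n : ℕ} (hn : Nat.Coprime m n) : (n : ℂ) * z ∉ PP.lattice := by
  intro h
  apply hz
  have hb := Nat.gcd_eq_gcd_ab m n
  rw [hn] at hb
  have h1 := add_mem (mul_int_mem hmz (m.gcdA n)) (mul_int_mem h (m.gcdB n))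
  have h2 : ((m.gcdA n : ℤ) : ℂ) * ((m : ℂ) * z) + ((m.gcdB n : ℤ) : ℂ) * ((n : ℂ) * z) = z := by
    have hb2 : (1 : ℂ) = (m : ℂ) * (m.gcdA n : ℤ) + n * (m.gcdB n : ℤ) := by exact_mod_cast hb
    linear_combination (-z) * hb2
  rwa [h2] at h1

end

end Pool.Agent.Lib.MP_1a91b9_nuT.S3
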