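import Pool.Agent.Lib.MP_1a91b9_nuT.BaseK
import Pool.Agent.Lib.MP_1a91b9_nuT.S3.Diff
import Pool.Agent.Lib.MP_1a91b9_nuT.S3.Val
import Pool.Agent.Lib.MP_1a91b9_nuT.S3.Dist

/-!
# Stream S3, file Ring: the lattice of S3 is the image of `𝓞 K`
-/

set_option autoImplicit false

namespace Pool.Agent.Lib.MP_1a91b9_nuT.S3

variable [CD]

open Complex NumberField

noncomputable section

theorem exists_coords (a : 𝓞 K) : ∃ m n : ℤ, (a : K) = m + n * om := exists_coordsK a

theorem mem_PP_iff {x : ℂ} : x ∈ PP.lattice ↔ ∃ a : 𝓞 K, embK (a : K) = x := by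
  rw [mem_PP]
  constructor
  · rintro ⟨m, n, rfl⟩
    exact ⟨(m : 𝓞 K) + n * omO, embK_lin m n⟩
  · rintro ⟨a, rfl⟩
    obtain ⟨m, n, h⟩ := exists_coords a
    refine ⟨m, n, ?_⟩
    rw [h, map_add, map_mul, map_intCast, map_intCast, embK_om]

theorem embK_mem (a : 𝓞 K) : embK (a : K) ∈ PP.lattice := mem_PP_iff.2 ⟨a, rfl⟩

/-- The bijection between `𝓞 K` and the lattice. -/
def latE : 𝓞 K ≃ PP.lattice :=
  Equiv.ofBijective (fun a => ⟨embK (a : K), embK_mem a⟩) (by
    constructor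
    · intro a b h
      have h1 : embK (a : K) = embK (b : K) := congrArg Subtype.val h
      have h2 : (a : K) = b := embK.toRingHom.injective h1
      exact RingOfIntegers.ext h2
    · rintro ⟨x, hx⟩
      obtain ⟨a, ha⟩ := mem_PP_iff.1 hx
      exact ⟨a, Subtype.ext ha⟩)

end

end Pool.Agent.Lib.MP_1a91b9_nuT.S3
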