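import Pool.Agent.Lib.MP_1a91b9_nuT.S3.Ring

/-!
# Stream S3, file Card: the number of classes modulo an element of `𝓞 K`
-/

set_option autoImplicit false

namespace Pool.Agent.Lib.MP_1a91b9_nuT.S3

variable [CD]

open Complex NumberField

noncomputable section

/-- The conjugate embedding. -/
def embK' : K →ₐ[ℚ] ℂ where
  toRingHom := (starRingEnd ℂ).comp embK.toRingHom
  commutes' := fun r => by
    change (starRingEnd ℂ) (embK (algebraMap ℚ K r)) = algebraMap ℚ ℂ r
    rw [embK.commutes]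
    change (starRingEnd ℂ) ((r : ℚ) : ℂ) = ((r : ℚ) : ℂ)
    simp

theorem embK'_apply (x : K) : embK' x = (starRingEnd ℂ) (embK x) := rfl

theorem embK_ne : embK ≠ embK' := by
  intro h
  have h1 := congrArg (fun f : K →ₐ[ℚ] ℂ => f om) h
  simp only [embK'_apply, embK_om] at h1
  have h2 := congrArg Complex.im h1
  rw [Complex.conj_im] at h2
  exact zt_ne (by linarith)

theorem norm_K (x : K) : ((Algebra.norm ℚ x : ℚ) : ℂ) = embK x * (starRingEnd ℂ) (embK x) := by
  classical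
  have h := Algebra.norm_eq_prod_embeddings ℚ ℂ x
  have hcard : Fintype.card (K →ₐ[ℚ] ℂ) = 2 := by
    rw [AlgHom.card, finrank_K]
  have huniv : (Finset.univ : Finset (K →ₐ[ℚ] ℂ)) = {embK, embK'} := by
    symm
    apply Finset.eq_univ_of_card
    rw [Finset.card_pair embK_ne, hcard]
  rw [huniv, Finset.prod_pair embK_ne] at h
  exact h

theorem norm_O (a : 𝓞 K) : ((Algebra.norm ℤ a : ℤ) : ℂ) =
    embK (a : K) * (starRingEnd ℂ) (embK (a : K)) := by
  rw [← norm_K, ← Algebra.coe_norm_int]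
  push_cast
  rfl

theorem norm_coords (p q : ℤ) : ((p : ℂ) + q * zt) * (starRingEnd ℂ) ((p : ℂ) + q * zt) =
    ((p ^ 2 + CD.tr * p * q + CD.nm * q ^ 2 : ℤ) : ℂ) := MP_1a91b9_nuT.norm_coords p q

/-- The number of classes modulo `p + q om`. -/
theorem card_quot (a : 𝓞 K) {p q : ℤ} (h : embK (a : K) = p + q * zt) :
    ((Nat.card (𝓞 K ⧸ Ideal.span {a}) : ℕ) : ℤ) = p ^ 2 + CD.tr * p * q + CD.nm * q ^ 2 := by
  have h1 : Ideal.absNorm (Ideal.span {a}) = (Algebra.norm ℤ a).natAbs :=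
    Ideal.absNorm_span_singleton a
  have h2 : Ideal.absNorm (Ideal.span {a}) = Nat.card (𝓞 K ⧸ Ideal.span {a}) := rfl
  have h3 : Algebra.norm ℤ a = p ^ 2 + CD.tr * p * q + CD.nm * q ^ 2 := by
    have h4 := norm_O a
    rw [h, norm_coords] at h4
    exact_mod_cast h4
  rw [← h2, h1, h3]
  exact Int.natAbs_of_nonneg (form_nonneg p q)

end

end Pool.Agent.Lib.MP_1a91b9_nuT.S3
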