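import Pool.Agent.Lib.MP_1a91b9_nuT.S3.Dup

/-!
# Stream S3, file Add: the addition formulas of `E1`
-/

set_option autoImplicit false

namespace Pool.Agent.Lib.MP_1a91b9_nuT.S3

open Complex Filter Topology

noncomputable section

variable [CD]

/-- The auxiliary function of the addition formula. -/
def addF (v z : ℂ) : ℂ :=
  (E1 (z + v) - E1 z - E1 v) ^ 2 - PP.weierstrassP z - PP.weierstrassP v -
    PP.weierstrassP (z + v)

theorem addF_eq (v : ℂ) : addF v =
    fun z => (Zf (z + v) - Zf z - Zf v) ^ 2 - PP.weierstrassP z - PP.weierstrassP v -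
      PP.weierstrassP (z + v) := by
  funext z
  rw [addF, E1, E1, E1, map_add]
  ring

theorem addF_add (v : ℂ) {l : ℂ} (hl : l ∈ PP.lattice) (z : ℂ) : addF v (z + l) = addF v z := by
  have h : z + l + v = z + v + l := by ring
  rw [addF, addF, h, E1_add hl, E1_add hl, P_add hl, P_add hl]

theorem addF_sym (v z : ℂ) : addF v (-z - v) = addF v z := by
  have h1 : -z - v + v = -z := by ring
  have h2 : -z - v = -(z + v) := by ring
  rw [addF, addF, h1, h2, E1_neg, E1_neg, PP.weierstrassP_neg, PP.weierstrassP_neg]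
  ring

theorem differentiableAt_addF {v z : ℂ} (hz : z ∉ PP.lattice) (hzv : z + v ∉ PP.lattice) :
    DifferentiableAt ℂ (addF v) z := by
  rw [addF_eq]
  have h1 : DifferentiableAt ℂ (fun z => Zf (z + v)) z :=
    ((hasDerivAt_Zf hzv).comp_add_const z v).differentiableAt
  have h3 : DifferentiableAt ℂ Zf z := (hasDerivAt_Zf hz).differentiableAt
  have h4 : DifferentiableAt ℂ PP.weierstrassP z := (hasDerivAt_P hz).differentiableAt
  have h5 : DifferentiableAt ℂ (fun z => PP.weierstrassP (z + v)) z :=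
    ((hasDerivAt_P hzv).comp_add_const z v).differentiableAt
  exact ((((h1.sub h3).sub_const _).pow 2).sub h4).sub_const _ |>.sub h5

theorem tendsto_addF_zero {v : ℂ} (hv : v ∉ PP.lattice) :
    Tendsto (addF v) (𝓝[≠] 0) (𝓝 0) := by
  have hv0 : (0 : ℂ) + v ∉ PP.lattice := by rwa [zero_add]
  have hd : HasDerivAt (fun z => Zf (z + v) - ZE 0 z) (- PP.weierstrassP v) 0 := by
    have h1 := (hasDerivAt_Zf hv0).comp_add_const 0 v
    have h2 := h1.sub hasDerivAt_ZE_zero
    rwa [zero_add, sub_zero] at h2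
  have a1 := hd.tendsto_slope_zero
  have a2 : Tendsto (fun z => Zf (z + v) - ZE 0 z - Zf v) (𝓝[≠] 0) (𝓝 0) := by
    have h1 := hd.continuousAt.tendsto.mono_left (nhdsWithin_le_nhds (s := {0}ᶜ))
    have h2 := h1.sub_const (Zf v)
    rw [zero_add, ZE_zero_zero, sub_zero, sub_self] at h2
    exact h2
  have a3 : Tendsto (fun z => Pr z * (z ^ 0)⁻¹) (𝓝[≠] 0) (𝓝 0) := tendsto_Pr (by norm_num)
  have a4 : Tendsto (fun z => PP.weierstrassP (z + v)) (𝓝[≠] 0) (𝓝 (PP.weierstrassP v)) := by
    have h1 : ContinuousAt (fun z => PP.weierstrassP (z + v)) 0 :=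
      ContinuousAt.comp (g := PP.weierstrassP) (f := fun z => z + v) (continuousAt_P hv0)
        (by fun_prop)
    have h2 := h1.tendsto.mono_left (nhdsWithin_le_nhds (s := {0}ᶜ))
    rwa [zero_add] at h2
  have h := ((((a1.const_mul (-2)).add (a2.pow 2)).sub a3).sub_const (PP.weierstrassP v)).sub a4
  have e : -2 * - PP.weierstrassP v + 0 ^ 2 - 0 - PP.weierstrassP v - PP.weierstrassP v = 0 := by
    ring
  rw [e] at h
  refine h.congr' ?_
  filter_upwards [self_mem_nhdsWithin] with z hz
  have hz0 : z ≠ 0 := hz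
  simp only [zero_add, ZE_zero_zero, sub_zero, smul_eq_mul]
  rw [addF_eq]
  simp only
  rw [Zf_eq_ZE_zero z, P_eq z]
  field_simp
  ring

/-- The addition formula (squared form). -/
theorem add_sq {u v : ℂ} (hu : u ∉ PP.lattice) (hv : v ∉ PP.lattice) (huv : u + v ∉ PP.lattice) :
    (E1 (u + v) - E1 u - E1 v) ^ 2 =
      PP.weierstrassP u + PP.weierstrassP v + PP.weierstrassP (u + v) := by
  have hS : ∀ z : ℂ, ∀ᶠ w in 𝓝[≠] z,
      w ∉ {w : ℂ | w ∈ PP.lattice ∨ w + v ∈ PP.lattice} := by
    intro z
    filter_upwards [eventually_notMem z, eventually_add_notMem v z] with w h1 h2 h3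
    exact h3.elim h1 h2
  have hF := fun l (hl : l ∈ PP.lattice) z => addF_add v hl z
  have h0 := tendsto_addF_zero hv
  have h1 := liouville_eq hS (F := addF v) (fun z hz => ?_) ?_ hF h0 u ?_
  · rw [addF] at h1
    linear_combination h1
  · exact differentiableAt_addF (fun h => hz (Or.inl h)) (fun h => hz (Or.inr h))
  · rintro s (hs | hs)
    · exact tendsto_mul_zero (tendsto_at_lattice hF h0 hs)
    · have h2 : Tendsto (fun z : ℂ => -z - v) (𝓝[≠] s) (𝓝[≠] (-s - v)) := by
        refine tendsto_nhdsWithin_iff.2 ⟨?_, ?_⟩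
        · have h2 : ContinuousAt (fun w : ℂ => -w - v) s := by fun_prop
          exact h2.tendsto.mono_left nhdsWithin_le_nhds
        · filter_upwards [self_mem_nhdsWithin] with w hw h
          apply hw
          have h' : -w - v = -s - v := h
          show w = s
          linear_combination -h'
      have h3 : -s - v ∈ PP.lattice := by
        have := neg_mem hs
        have e : -(s + v) = -s - v := by ring
        rwa [e] at this
      have h4 := (tendsto_at_lattice hF h0 h3).comp h2
      refine tendsto_mul_zero (a := 0) (h4.congr fun z => ?_)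
      exact addF_sym v z
  · rintro (h | h)
    · exact hu h
    · exact huv h

end

end Pool.Agent.Lib.MP_1a91b9_nuT.S3
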