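import Pool.Agent.Lib.MP_1a91b9_nuT.Base

/-!
# S3 definitions: the Eisenstein-Kronecker function `E₁` of the lattice `ℤ + ℤ zt`
-/

set_option autoImplicit false

namespace Pool.Agent.Lib.MP_1a91b9_nuT

noncomputable section

variable [CD]

/-- The lattice point `p + q zt`. -/
def lp (l : ℤ × ℤ) : ℂ := l.1 + l.2 * zt

/-- The Weierstrass zeta function of `ℤ + ℤ zt` (with `0⁻¹ = 0`). -/
def Zf (z : ℂ) : ℂ := ∑' l : ℤ × ℤ, ((z + lp l)⁻¹ - (lp l)⁻¹ + z * ((lp l) ^ 2)⁻¹)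

/-- The coefficient of `conj z` in the quasi periods. -/
def etaE : ℂ := (2 * Zf (1 / 2) * zt - 2 * Zf (zt / 2)) / (zt - (starRingEnd ℂ) zt)

/-- The coefficient of `z` in the quasi periods. -/
def e2E : ℂ := 2 * Zf (1 / 2) - etaE

/-- The Eisenstein-Kronecker function `E₁` of `ℤ + ℤ zt`. -/
def E1 (z : ℂ) : ℂ := Zf z - e2E * z - etaE * (starRingEnd ℂ) z

/-- The first difference. -/
def Df (s : ℂ) (f : ℂ → ℂ) (w : ℂ) : ℂ := f w - f (w + s)

/-- A two-adic place of `ℂ`. -/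
def Two (A : ValuationSubring ℂ) : Prop := (2 : ℂ)⁻¹ ∉ A

end

end Pool.Agent.Lib.MP_1a91b9_nuT
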