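import Pool.Agent.Lib.MP_1a91b9_nuT.S3.Local

/-!
# Stream S3, file Dup: half periods
-/

set_option autoImplicit false

namespace Pool.Agent.Lib.MP_1a91b9_nuT.S3

open Complex Filter Topology

noncomputable section

variable [CD]

theorem notMem_of_two_mul {z : ℂ} (hz : 2 * z ∉ PP.lattice) : z ∉ PP.lattice := by
  intro h
  apply hz
  have h2 := mul_mem (nat_mem 2) h
  exact_mod_cast h2

theorem tendsto_two_mul : Tendsto (fun z : ℂ => 2 * z) (𝓝[≠] 0) (𝓝[≠] 0) := by
  refine tendsto_nhdsWithin_iff.2 ⟨?_, ?_⟩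
  · have h2 : ContinuousAt (fun w : ℂ => 2 * w) 0 := by fun_prop
    have h3 := h2.tendsto
    rw [mul_zero] at h3
    exact h3.mono_left nhdsWithin_le_nhds
  · filter_upwards [self_mem_nhdsWithin] with w hw
    exact mul_ne_zero two_ne_zero hw

theorem Q_half {s : ℂ} (hs : 2 * s ∈ PP.lattice) : PP.derivWeierstrassP s = 0 := by
  have h1 := Q_add hs (-s)
  have h2 : -s + 2 * s = s := by ring
  rw [h2, PP.derivWeierstrassP_neg] at h1
  have h3 : 2 * PP.derivWeierstrassP s = 0 := by linear_combination h1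
  simpa using h3

end

end Pool.Agent.Lib.MP_1a91b9_nuT.S3
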