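import Pool.Agent.Lib.MP_1a91b9_nuT.S3.Add

/-!
# Stream S3, file Inj: the Weierstrass function is injective up to sign
-/

set_option autoImplicit false

namespace Pool.Agent.Lib.MP_1a91b9_nuT.S3

open Complex Filter Topology

noncomputable section

variable [CD]

/-- The auxiliary function. -/
def sigF (w z : ℂ) : ℂ :=
  (PP.weierstrassP z - PP.weierstrassP w) * (E1 (z - w) - E1 (z + w) + 2 * E1 w) -
    PP.derivWeierstrassP w

theorem sigF_eq (w : ℂ) : sigF w =
    fun z => (PP.weierstrassP z - PP.weierstrassP w) * (Zf (z - w) - Zf (z + w) + 2 * Zf w) -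
      PP.derivWeierstrassP w := by
  funext z
  rw [sigF, E1, E1, E1, map_add, map_sub]
  ring

theorem sigF_add (w : ℂ) {l : ℂ} (hl : l ∈ PP.lattice) (z : ℂ) : sigF w (z + l) = sigF w z := by
  have h : z + l + w = z + w + l := by ring
  have h2 : z + l - w = z - w + l := by ring
  rw [sigF, sigF, h, h2, E1_add hl, E1_add hl, P_add hl]

theorem differentiableAt_sigF {w z : ℂ} (hz : z ∉ PP.lattice) (h1 : z - w ∉ PP.lattice)
    (h2 : z + w ∉ PP.lattice) : DifferentiableAt ℂ (sigF w) z := by
  rw [sigF_eq]
  have a1 : DifferentiableAt ℂ (fun z => Zf (z - w)) z :=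
    ((hasDerivAt_Zf h1).comp_sub_const z w).differentiableAt
  have a2 : DifferentiableAt ℂ (fun z => Zf (z + w)) z :=
    ((hasDerivAt_Zf h2).comp_add_const z w).differentiableAt
  have a3 : DifferentiableAt ℂ PP.weierstrassP z := (hasDerivAt_P hz).differentiableAt
  exact ((a3.sub_const _).mul ((a1.sub a2).add_const _)).sub_const _

theorem tendsto_sub_ne (s w : ℂ) : Tendsto (fun z : ℂ => z - w) (𝓝[≠] s) (𝓝[≠] (s - w)) := by
  refine tendsto_nhdsWithin_iff.2 ⟨?_, ?_⟩
  · have h2 : ContinuousAt (fun z : ℂ => z - w) s := by fun_prop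
    exact h2.tendsto.mono_left nhdsWithin_le_nhds
  · filter_upwards [self_mem_nhdsWithin] with z hz h
    exact hz (sub_left_injective h)

theorem tendsto_E1_sub {s w : ℂ} (h : s - w ∈ PP.lattice) :
    Tendsto (fun z => (z - s) * E1 (z - w)) (𝓝[≠] s) (𝓝 1) := by
  refine ((tendsto_E1 h).comp (tendsto_sub_ne s w)).congr fun z => ?_
  simp only [Function.comp_apply]
  ring

theorem tendsto_P_self {s : ℂ} (hs : s ∉ PP.lattice) :
    Tendsto PP.weierstrassP (𝓝[≠] s) (𝓝 (PP.weierstrassP s)) :=
  (continuousAt_P hs).tendsto.mono_left nhdsWithin_le_nhds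

theorem tendsto_E1_shift {s w : ℂ} (hs : s - w ∉ PP.lattice) :
    Tendsto (fun z => E1 (z - w)) (𝓝[≠] s) (𝓝 (E1 (s - w))) := by
  have h1 : ContinuousAt (fun z => E1 (z - w)) s :=
    ContinuousAt.comp (g := E1) (f := fun z => z - w) (continuousAt_E1 hs) (by fun_prop)
  exact h1.tendsto.mono_left nhdsWithin_le_nhds

/-- The limit of the auxiliary function at `w`. -/
theorem tendsto_sigF_self {w : ℂ} (hw : 2 * w ∉ PP.lattice) :
    Tendsto (sigF w) (𝓝[≠] w) (𝓝 0) := by
  have hw1 := notMem_of_two_mul hw
  have a1 : Tendsto (fun z => (z - w)⁻¹ * (PP.weierstrassP z - PP.weierstrassP w)) (𝓝[≠] w)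
      (𝓝 (PP.derivWeierstrassP w)) := by
    have h1 := (hasDerivAt_P hw1).tendsto_slope
    refine h1.congr' ?_
    filter_upwards [self_mem_nhdsWithin] with z hz
    rw [slope_def_field, div_eq_inv_mul]
  have a2 : Tendsto (fun z => (z - w) * E1 (z - w)) (𝓝[≠] w) (𝓝 1) :=
    tendsto_E1_sub (by rw [sub_self]; exact zero_mem _)
  have a3 : Tendsto (fun z => PP.weierstrassP z - PP.weierstrassP w) (𝓝[≠] w) (𝓝 0) := by
    have := (tendsto_P_self hw1).sub_const (PP.weierstrassP w)
    rwa [sub_self] at this
  have a4 : Tendsto (fun z => E1 (z + w)) (𝓝[≠] w) (𝓝 (E1 (w + w))) := by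
    have := tendsto_E1_shift (s := w) (w := -w) (by rw [sub_neg_eq_add, ← two_mul]; exact hw)
    simpa only [sub_neg_eq_add] using this
  have h := ((a1.mul a2).add (a3.mul ((a4.neg).add_const (2 * E1 w)))).sub_const
    (PP.derivWeierstrassP w)
  rw [mul_one, zero_mul, add_zero, sub_self] at h
  refine h.congr' ?_
  filter_upwards [self_mem_nhdsWithin] with z hz
  have hz0 : z - w ≠ 0 := sub_ne_zero.2 hz
  rw [sigF]
  field_simp
  ring

theorem sig {w z : ℂ} (hw : 2 * w ∉ PP.lattice) (hz : z ∉ PP.lattice) (h1 : z - w ∉ PP.lattice)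
    (h2 : z + w ∉ PP.lattice) :
    (PP.weierstrassP z - PP.weierstrassP w) * (E1 (z - w) - E1 (z + w) + 2 * E1 w) =
      PP.derivWeierstrassP w := by
  have hw1 := notMem_of_two_mul hw
  have hS : ∀ z : ℂ, ∀ᶠ x in 𝓝[≠] z,
      x ∉ {x : ℂ | x ∈ PP.lattice ∨ x - w ∈ PP.lattice ∨ x + w ∈ PP.lattice} := by
    intro z
    filter_upwards [eventually_notMem z, eventually_add_notMem w z,
      eventually_add_notMem (-w) z] with x b1 b2 b3 b4
    rw [← sub_eq_add_neg] at b3
    exact b4.elim b1 (fun b => b.elim b3 b2)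
  have hF := fun l (hl : l ∈ PP.lattice) z => sigF_add w hl z
  have h3 := liouville_eq hS (F := sigF w) (fun z hz => ?_) ?_ hF (tendsto_sigF_self hw) z ?_
  · rw [sigF] at h3
    linear_combination h3
  · exact differentiableAt_sigF (fun h => hz (Or.inl h)) (fun h => hz (Or.inr (Or.inl h)))
      (fun h => hz (Or.inr (Or.inr h)))
  · rintro s hs
    by_cases hsl : s ∈ PP.lattice
    · -- at a lattice point
      have hneg : (0 : ℂ) - w ∉ PP.lattice := fun h => hw1 (by simpa using neg_mem h)
      have hpos : (0 : ℂ) + w ∉ PP.lattice := by rwa [zero_add]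
      have hB : HasDerivAt (fun z => Zf (z - w) - Zf (z + w) + 2 * Zf w) 0 0 := by
        have b1 := (hasDerivAt_Zf hneg).comp_sub_const 0 w
        have b2 := (hasDerivAt_Zf hpos).comp_add_const 0 w
        have b3 := (b1.sub b2).add_const (2 * Zf w)
        refine b3.congr_deriv ?_
        rw [zero_sub, zero_add, PP.weierstrassP_neg]
        ring
      have hB0 : Zf (0 - w) - Zf (0 + w) + 2 * Zf w = 0 := by
        rw [zero_sub, zero_add, Zf_neg]
        ring
      have b1 := hB.tendsto_slope_zero
      have hB1 : Zf (0 - w) - Zf w + 2 * Zf w = 0 := by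
        rw [zero_sub, Zf_neg]
        ring
      simp only [zero_add, hB1, sub_zero, smul_eq_mul] at b1
      have b2 : Tendsto (fun z => Zf (z - w) - Zf (z + w) + 2 * Zf w) (𝓝[≠] 0) (𝓝 0) := by
        have := hB.continuousAt.tendsto.mono_left (nhdsWithin_le_nhds (s := {0}ᶜ))
        rwa [hB0] at this
      have b3 : Tendsto (fun z => Pr z * (z ^ 0)⁻¹) (𝓝[≠] 0) (𝓝 0) := tendsto_Pr (by norm_num)
      have b4 : Tendsto (fun z : ℂ => z) (𝓝[≠] 0) (𝓝 0) := tendsto_id.mono_left nhdsWithin_le_nhds
      have b5 := (b1.add (b4.mul ((b3.sub_const (PP.weierstrassP w)).mul b2))).sub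
        (b4.mul_const (PP.derivWeierstrassP w))
      simp only [mul_zero, zero_mul, add_zero, sub_zero] at b5
      have b6 : Tendsto (fun z => z * sigF w z) (𝓝[≠] 0) (𝓝 0) := by
        refine b5.congr' ?_
        filter_upwards [self_mem_nhdsWithin] with z hz
        have hz0 : z ≠ 0 := hz
        rw [sigF_eq]
        simp only
        rw [P_eq z]
        field_simp
        ring
      have b7 := tendsto_translate (l := s) b6
      refine b7.congr fun z => ?_
      have := hF s hsl (z - s)
      rw [sub_add_cancel] at this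
      rw [this]
    · have hs2 : s - w ∈ PP.lattice ∨ s + w ∈ PP.lattice := hs.resolve_left hsl
      have c1 := tendsto_P_self hsl
      rcases hs2 with hs2 | hs2
      · have hPs : PP.weierstrassP s = PP.weierstrassP w := by
          have := P_add hs2 w
          rwa [add_sub_cancel] at this
        have hsw : s + w ∉ PP.lattice := by
          intro h
          apply hw
          have := sub_mem h hs2
          have e : s + w - (s - w) = 2 * w := by ring
          rwa [e] at this
        rw [hPs] at c1
        have c2 := c1.sub_const (PP.weierstrassP w)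
        rw [sub_self] at c2
        have c3 := tendsto_E1_sub hs2
        have c4 : Tendsto (fun z => E1 (z + w)) (𝓝[≠] s) (𝓝 (E1 (s + w))) := by
          have := tendsto_E1_shift (s := s) (w := -w) (by rwa [sub_neg_eq_add])
          simpa only [sub_neg_eq_add] using this
        have c5 := (c2.mul c3).add (tendsto_mul_zero ((c2.mul ((c4.neg).add_const
          (2 * E1 w))).sub_const (PP.derivWeierstrassP w)))
        rw [zero_mul, add_zero] at c5
        refine c5.congr fun z => ?_
        rw [sigF]
        ring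
      · have hPs : PP.weierstrassP s = PP.weierstrassP w := by
          have := P_add hs2 (-w)
          rw [neg_add_cancel_comm_assoc, PP.weierstrassP_neg] at this
          exact this
        have hsw : s - w ∉ PP.lattice := by
          intro h
          apply hw
          have := sub_mem hs2 h
          have e : s + w - (s - w) = 2 * w := by ring
          rwa [e] at this
        rw [hPs] at c1
        have c2 := c1.sub_const (PP.weierstrassP w)
        rw [sub_self] at c2
        have c3 : Tendsto (fun z => (z - s) * E1 (z + w)) (𝓝[≠] s) (𝓝 1) := by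
          have := tendsto_E1_sub (s := s) (w := -w) (by rwa [sub_neg_eq_add])
          simpa only [sub_neg_eq_add] using this
        have c4 := tendsto_E1_shift (s := s) (w := w) hsw
        have c5 := (c2.mul c3.neg).add (tendsto_mul_zero ((c2.mul (c4.add_const
          (2 * E1 w))).sub_const (PP.derivWeierstrassP w)))
        rw [zero_mul, add_zero] at c5
        refine c5.congr fun z => ?_
        rw [sigF]
        ring
  · rintro (h | h | h)
    · exact hz h
    · exact h1 h
    · exact h2 h

/-- The Weierstrass function is injective up to sign. -/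
theorem P_inj {w z : ℂ} (hw : 2 * w ∉ PP.lattice) (hQ : PP.derivWeierstrassP w ≠ 0)
    (hz : z ∉ PP.lattice) (h : PP.weierstrassP z = PP.weierstrassP w) :
    z - w ∈ PP.lattice ∨ z + w ∈ PP.lattice := by
  by_contra hc
  push Not at hc
  have h1 := sig hw hz hc.1 hc.2
  rw [h, sub_self, zero_mul] at h1
  exact hQ h1.symm

end

end Pool.Agent.Lib.MP_1a91b9_nuT.S3
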