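import Pool.Agent.Lib.MP_1a91b9_nuT.S3.Lat

/-!
# Stream S3, file Liou: an elliptic function without poles is constant
-/

set_option autoImplicit false

namespace Pool.Agent.Lib.MP_1a91b9_nuT.S3

open Complex Filter Topology

noncomputable section

variable [CD]

theorem isOpen_of_iso {S : Set ℂ} (hS : ∀ z, ∀ᶠ w in 𝓝[≠] z, w ∉ S) : IsOpen Sᶜ := by
  rw [isOpen_iff_mem_nhds]
  intro z hz
  have h := hS z
  rw [eventually_nhdsWithin_iff] at h
  filter_upwards [h] with w hw
  by_cases hwz : w = z
  · rw [hwz]; exact hz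
  · exact hw hwz

/-- A function which is periodic for `ℤ + ℤ zt`, holomorphic off a closed discrete set `S` and which
has removable singularities at the points of `S`, is constant off `S`. -/
theorem liouville {S : Set ℂ} (hS : ∀ z, ∀ᶠ w in 𝓝[≠] z, w ∉ S) {F : ℂ → ℂ}
    (hd : ∀ z ∉ S, DifferentiableAt ℂ F z)
    (hb : ∀ s ∈ S, Tendsto (fun z => (z - s) * F z) (𝓝[≠] s) (𝓝 0))
    (hp : ∀ l ∈ PP.lattice, ∀ z, F (z + l) = F z) : ∃ c, ∀ z ∉ S, F z = c := by
  classical
  have hO := isOpen_of_iso hS
  set G : ℂ → ℂ := fun z => if z ∈ S then limUnder (𝓝[≠] z) F else F z with hG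
  have hGF : ∀ z ∉ S, G z = F z := fun z hz => if_neg hz
  have hGd : Differentiable ℂ G := by
    intro z
    by_cases hz : z ∈ S
    · have h1 := hS z
      rw [eventually_nhdsWithin_iff] at h1
      obtain ⟨U, hU, hUo, hzU⟩ := mem_nhds_iff.1 h1
      have hUS : ∀ w ∈ U, w ≠ z → w ∉ S := fun w hw hwz => hU hw hwz
      have h2 : DifferentiableOn ℂ F (U \ {z}) := fun w hw =>
        (hd w (hUS w hw.1 hw.2)).differentiableWithinAt
      have h3 : (fun w => F w - F z) =o[𝓝[≠] z] fun w => (w - z)⁻¹ := by
        rw [Asymptotics.isLittleO_iff_tendsto']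
        · have h4 : Tendsto (fun w => (w - z) * F w - (w - z) * F z) (𝓝[≠] z) (𝓝 0) := by
            have h5 : Tendsto (fun w => (w - z) * F z) (𝓝[≠] z) (𝓝 0) := by
              have h6 : ContinuousAt (fun w => (w - z) * F z) z := by fun_prop
              have h7 := h6.tendsto
              rw [sub_self, zero_mul] at h7
              exact h7.mono_left nhdsWithin_le_nhds
            simpa using (hb z hz).sub h5
          refine h4.congr' ?_
          filter_upwards [self_mem_nhdsWithin] with w hw
          rw [div_inv_eq_mul]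
          ring
        · filter_upwards [self_mem_nhdsWithin] with w hw h
          exact absurd (inv_eq_zero.1 h) (sub_ne_zero.2 hw)
      have h8 := Complex.differentiableOn_update_limUnder_of_isLittleO (hUo.mem_nhds hzU) h2 h3
      have h9 : DifferentiableAt ℂ (Function.update F z (limUnder (𝓝[≠] z) F)) z :=
        (h8 z hzU).differentiableAt (hUo.mem_nhds hzU)
      refine h9.congr_of_eventuallyEq ?_
      filter_upwards [hUo.mem_nhds hzU] with w hw
      by_cases hwz : w = z
      · subst hwz
        rw [Function.update_self]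
        exact if_pos hz
      · rw [Function.update_of_ne hwz]
        exact hGF w (hUS w hw hwz)
    · refine (hd z hz).congr_of_eventuallyEq ?_
      filter_upwards [hO.mem_nhds hz] with w hw
      exact hGF w hw
  have hGp : ∀ z : ℂ, ∀ l ∈ PP.lattice, G (z + l) = G z := by
    intro z l hl
    have h1 : ∀ᶠ w in 𝓝[≠] z, w + l ∉ S := by
      have h2 := hS (z + l)
      rw [eventually_nhdsWithin_iff] at h2 ⊢
      have h3 : Tendsto (fun w : ℂ => w + l) (𝓝 z) (𝓝 (z + l)) := by
        have : ContinuousAt (fun w : ℂ => w + l) z := by fun_prop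
        exact this
      filter_upwards [h3.eventually h2] with w hw hwz
      apply hw
      intro h
      exact hwz (add_right_cancel h)
    have h4 : ∀ᶠ w in 𝓝[≠] z, G (w + l) = G w := by
      filter_upwards [h1, hS z] with w hw1 hw2
      rw [hGF _ hw1, hGF _ hw2, hp l hl]
    have hc1 : ContinuousAt (fun w => G (w + l)) z :=
      ContinuousAt.comp (g := G) (f := fun w => w + l) hGd.continuous.continuousAt (by fun_prop)
    exact tendsto_nhds_unique_of_eventuallyEq
      (hc1.tendsto.mono_left (nhdsWithin_le_nhds (s := {z}ᶜ)))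
      ((hGd z).continuousAt.tendsto.mono_left (nhdsWithin_le_nhds (s := {z}ᶜ))) h4
  refine ⟨G 0, fun z hz => ?_⟩
  rw [← hGF z hz]
  exact hGd.apply_eq_apply_of_bounded
    (IsZLattice.isCompact_range_of_periodic PP.lattice _ hGd.continuous
      (fun z w hw => hGp z w hw)).isBounded z 0

/-- The constant of `liouville` can be read off at any point. -/
theorem liouville_eq {S : Set ℂ} (hS : ∀ z, ∀ᶠ w in 𝓝[≠] z, w ∉ S) {F : ℂ → ℂ}
    (hd : ∀ z ∉ S, DifferentiableAt ℂ F z)
    (hb : ∀ s ∈ S, Tendsto (fun z => (z - s) * F z) (𝓝[≠] s) (𝓝 0))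
    (hp : ∀ l ∈ PP.lattice, ∀ z, F (z + l) = F z) {s a : ℂ}
    (ha : Tendsto F (𝓝[≠] s) (𝓝 a)) : ∀ z ∉ S, F z = a := by
  obtain ⟨c, hc⟩ := liouville hS hd hb hp
  have h1 : Tendsto F (𝓝[≠] s) (𝓝 c) := by
    refine tendsto_const_nhds.congr' ?_
    filter_upwards [hS s] with w hw
    exact (hc w hw).symm
  rw [tendsto_nhds_unique ha h1]
  exact hc

end

end Pool.Agent.Lib.MP_1a91b9_nuT.S3
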