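import Pool.Agent.Lib.MP_1a91b9_nuT.S3.Quasi
import Pool.Agent.Lib.MP_1a91b9_nuT.S3.Liou

/-!
# Stream S3, file Local: expansions at the lattice points
-/

set_option autoImplicit false

namespace Pool.Agent.Lib.MP_1a91b9_nuT.S3

open Complex Filter Topology

noncomputable section

variable [CD]

/-- An even or odd function analytic at `0` with a zero of order at least `k - 1`, `k` of the same
parity, vanishes to the order `k`. -/
theorem isBigO_of_par {f : ℂ → ℂ} (hf : AnalyticAt ℂ f 0) {k : ℕ}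
    (hs : ∀ z, f (-z) = (-1) ^ k * f z) (h1 : ∀ n < k - 1, ∀ g : ℂ → ℂ, AnalyticAt ℂ g 0 →
      g 0 ≠ 0 → ¬ ∀ᶠ z in 𝓝 0, f z = z ^ n * g z) : f =O[𝓝 0] (fun z => z ^ k) := by
  by_cases h0 : ∀ᶠ z in 𝓝 0, f z = 0
  · exact (Asymptotics.isBigO_zero _ _).congr' (h0.mono fun z hz => hz.symm) EventuallyEq.rfl
  obtain ⟨n, g, hg, hg0, hfg⟩ := hf.exists_eventuallyEq_pow_smul_nonzero_iff.2 h0
  simp only [sub_zero, smul_eq_mul] at hfg
  have ht : Tendsto (fun z : ℂ => -z) (𝓝 0) (𝓝 0) := by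
    have h1 : ContinuousAt (fun z : ℂ => -z) 0 := by fun_prop
    have h2 := h1.tendsto
    rwa [neg_zero] at h2
  have h2 : ∀ᶠ z in 𝓝[≠] (0 : ℂ), (-1) ^ n * g (-z) = (-1) ^ k * g z := by
    filter_upwards [mem_nhdsWithin_of_mem_nhds hfg,
      mem_nhdsWithin_of_mem_nhds (ht.eventually hfg), self_mem_nhdsWithin] with z h2 h3 h4
    have h5 := hs z
    rw [h3, h2, neg_pow] at h5
    have h6 : z ^ n ≠ 0 := pow_ne_zero _ h4
    apply mul_left_cancel₀ h6
    linear_combination h5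
  have hgc : ContinuousAt g 0 := hg.continuousAt
  have h3 : (-1 : ℂ) ^ n * g 0 = (-1) ^ k * g 0 := by
    have e1 : Tendsto (fun z => (-1 : ℂ) ^ n * g (-z)) (𝓝[≠] 0) (𝓝 ((-1) ^ n * g 0)) :=
      ((hgc.tendsto.comp ht).const_mul _).mono_left nhdsWithin_le_nhds
    have e2 : Tendsto (fun z => (-1 : ℂ) ^ k * g z) (𝓝[≠] 0) (𝓝 ((-1) ^ k * g 0)) :=
      (hgc.tendsto.const_mul _).mono_left nhdsWithin_le_nhds
    exact tendsto_nhds_unique_of_eventuallyEq e1 e2 h2
  have h4 : (-1 : ℂ) ^ n = (-1) ^ k := mul_right_cancel₀ hg0 h3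
  have h5 : k - 1 ≤ n := by
    by_contra h
    push Not at h
    exact h1 n h g hg hg0 hfg
  have h6 : k ≤ n := by
    by_contra h
    have h7 : k = n + 1 := by omega
    rw [h7, pow_succ] at h4
    have h8 : (-1 : ℂ) ^ n = 0 := by linear_combination h4 / 2
    exact pow_ne_zero n (by norm_num) h8
  have h7 : (fun z => z ^ k * (z ^ (n - k) * g z)) =O[𝓝 0] (fun z : ℂ => z ^ k * (1 : ℂ)) := by
    refine (Asymptotics.isBigO_refl _ _).mul ?_
    have e1 : ContinuousAt (fun z : ℂ => z ^ (n - k) * g z) 0 := by fun_prop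
    exact e1.tendsto.isBigO_one ℂ
  simp only [mul_one] at h7
  refine h7.congr' ?_ EventuallyEq.rfl
  filter_upwards [hfg] with z hz
  rw [hz, ← mul_assoc, ← pow_add, Nat.add_sub_cancel' h6]

theorem tendsto_of_isBigO {f : ℂ → ℂ} {k j : ℕ} (hf : f =O[𝓝 0] (fun z => z ^ k)) (hj : j < k) :
    Tendsto (fun z => f z * (z ^ j)⁻¹) (𝓝[≠] 0) (𝓝 0) := by
  have h1 : (fun z => f z * (z ^ j)⁻¹) =O[𝓝[≠] 0] (fun z => z ^ k * (z ^ j)⁻¹) :=
    (hf.mono nhdsWithin_le_nhds).mul (Asymptotics.isBigO_refl _ _)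
  refine h1.trans_tendsto ?_
  have h2 : ContinuousAt (fun z : ℂ => z ^ (k - j)) 0 := by fun_prop
  have h3 := h2.tendsto
  rw [zero_pow (by omega)] at h3
  refine (h3.mono_left (nhdsWithin_le_nhds (s := {0}ᶜ))).congr' ?_
  filter_upwards [self_mem_nhdsWithin] with z hz
  have hz0 : z ≠ 0 := hz
  rw [← div_eq_mul_inv, eq_div_iff (pow_ne_zero _ hz0), ← pow_add]
  congr 1
  omega

/-- The regular part of the Weierstrass function at `0`. -/
def Pr (z : ℂ) : ℂ := PP.weierstrassPExcept 0 z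

/-- The regular part of the derivative of the Weierstrass function at `0`. -/
def Qr (z : ℂ) : ℂ := PP.derivWeierstrassPExcept 0 z

theorem P_eq (z : ℂ) : PP.weierstrassP z = (z ^ 2)⁻¹ + Pr z := by
  have h := PP.weierstrassPExcept_add 0 z
  rw [← h, ZeroMemClass.coe_zero, Pr]
  simp
  ring

theorem Q_eq (z : ℂ) : PP.derivWeierstrassP z = -2 * (z ^ 3)⁻¹ + Qr z := by
  have h := PP.derivWeierstrassPExcept_sub 0 z
  rw [← h, ZeroMemClass.coe_zero, Qr, sub_zero, div_eq_mul_inv]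
  ring

theorem Pr_neg (z : ℂ) : Pr (-z) = Pr z := by
  have h1 := P_eq (-z)
  have h2 := P_eq z
  rw [PP.weierstrassP_neg, neg_sq, h2] at h1
  linear_combination -h1

theorem Pr_zero : Pr 0 = 0 := PP.weierstrassPExcept_zero 0

theorem ZE_neg (z : ℂ) : ZE 0 (-z) = -ZE 0 z := by
  have h1 := Zf_eq_ZE_zero (-z)
  have h2 := Zf_eq_ZE_zero z
  rw [Zf_neg, h2, inv_neg] at h1
  linear_combination -h1

theorem Qr_neg (z : ℂ) : Qr (-z) = -Qr z := by
  have h1 := Q_eq (-z)
  have h2 := Q_eq z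
  have h : ((-z) ^ 3)⁻¹ = - (z ^ 3)⁻¹ := by
    rw [neg_pow, mul_inv]
    norm_num
  rw [PP.derivWeierstrassP_neg, h, h2] at h1
  linear_combination -h1

theorem analyticAt_ZE : AnalyticAt ℂ (ZE 0) 0 :=
  (differentiableOn_ZE 0).analyticAt ((isOpen_set 0).mem_nhds (fun h => h.2 rfl))

theorem Pr_isBigO : Pr =O[𝓝 0] (fun z => z ^ 2) := by
  refine isBigO_of_par (f := Pr) (PP.analyticAt_weierstrassPExcept 0) (fun z => ?_) ?_
  · rw [Pr_neg]
    ring
  · intro n hn g hg hg0 h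
    have hn0 : n = 0 := by omega
    subst hn0
    have h1 := h.self_of_nhds
    rw [pow_zero, one_mul, Pr_zero] at h1
    exact hg0 h1.symm

theorem Qr_isBigO : Qr =O[𝓝 0] (fun z => z ^ 1) := by
  refine isBigO_of_par (f := Qr) (PP.analyticAt_derivWeierstrassPExcept 0) (fun z => ?_) ?_
  · rw [Qr_neg]
    ring
  · intro n hn
    omega

theorem ZE_isBigO : ZE 0 =O[𝓝 0] (fun z => z ^ 3) := by
  refine isBigO_of_par analyticAt_ZE (fun z => ?_) ?_
  · rw [ZE_neg]
    ring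
  · intro n hn g hg hg0 h
    have hn1 : n = 0 ∨ n = 1 := by omega
    rcases hn1 with rfl | rfl
    · have h1 := h.self_of_nhds
      rw [pow_zero, one_mul, ZE_zero_zero] at h1
      exact hg0 h1.symm
    · have h1 : HasDerivAt (fun z : ℂ => z ^ 1 * g z) (g 0) 0 := by
        have h2 := (hasDerivAt_id (0 : ℂ)).mul hg.differentiableAt.hasDerivAt
        simp only [id_eq, one_mul, zero_mul, add_zero] at h2
        refine h2.congr_of_eventuallyEq (Eventually.of_forall fun z => ?_)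
        show z ^ 1 * g z = z * g z
        rw [pow_one]
      have h2 := h1.congr_of_eventuallyEq h
      exact hg0 (h2.unique hasDerivAt_ZE_zero)

theorem tendsto_Pr {j : ℕ} (hj : j < 2) :
    Tendsto (fun z => Pr z * (z ^ j)⁻¹) (𝓝[≠] 0) (𝓝 0) := tendsto_of_isBigO Pr_isBigO hj

theorem tendsto_Qr {j : ℕ} (hj : j < 1) :
    Tendsto (fun z => Qr z * (z ^ j)⁻¹) (𝓝[≠] 0) (𝓝 0) := tendsto_of_isBigO Qr_isBigO hj

theorem tendsto_ZE {j : ℕ} (hj : j < 3) :
    Tendsto (fun z => ZE 0 z * (z ^ j)⁻¹) (𝓝[≠] 0) (𝓝 0) := tendsto_of_isBigO ZE_isBigO hj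

/-- Translation of a punctured limit. -/
theorem tendsto_translate {F : ℂ → ℂ} {b : Filter ℂ} {l : ℂ}
    (h : Tendsto F (𝓝[≠] 0) b) : Tendsto (fun z => F (z - l)) (𝓝[≠] l) b := by
  refine h.comp ?_
  refine tendsto_nhdsWithin_iff.2 ⟨?_, ?_⟩
  · have h1 : ContinuousAt (fun z : ℂ => z - l) l := by fun_prop
    have h2 := h1.tendsto
    rw [sub_self] at h2
    exact h2.mono_left nhdsWithin_le_nhds
  · filter_upwards [self_mem_nhdsWithin] with z hz
    exact sub_ne_zero.2 hz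

theorem tendsto_at_lattice {F : ℂ → ℂ} (hp : ∀ l ∈ PP.lattice, ∀ z, F (z + l) = F z)
    {b : Filter ℂ} (h : Tendsto F (𝓝[≠] 0) b) {l : ℂ} (hl : l ∈ PP.lattice) :
    Tendsto F (𝓝[≠] l) b := by
  refine (tendsto_translate (l := l) h).congr fun z => ?_
  have := hp l hl (z - l)
  rw [sub_add_cancel] at this
  exact this.symm

theorem tendsto_mul_zero {F : ℂ → ℂ} {s a : ℂ} (h : Tendsto F (𝓝[≠] s) (𝓝 a)) :
    Tendsto (fun z => (z - s) * F z) (𝓝[≠] s) (𝓝 0) := by
  have h1 : ContinuousAt (fun z : ℂ => z - s) s := by fun_prop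
  have h2 := h1.tendsto
  rw [sub_self] at h2
  have h3 := (h2.mono_left (nhdsWithin_le_nhds (s := {s}ᶜ))).mul h
  rwa [zero_mul] at h3

/-- The division points of the lattice are isolated. -/
theorem eventually_mul_notMem {α : ℂ} (hα : α ≠ 0) (z : ℂ) :
    ∀ᶠ w in 𝓝[≠] z, α * w ∉ PP.lattice := by
  have h1 : Tendsto (fun w : ℂ => α * w) (𝓝[≠] z) (𝓝[≠] (α * z)) := by
    refine tendsto_nhdsWithin_iff.2 ⟨?_, ?_⟩
    · have h2 : ContinuousAt (fun w : ℂ => α * w) z := by fun_prop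
      exact h2.tendsto.mono_left nhdsWithin_le_nhds
    · filter_upwards [self_mem_nhdsWithin] with w hw h
      exact hw (mul_left_cancel₀ hα h)
  exact h1.eventually (eventually_notMem (α * z))

theorem eventually_add_notMem (v z : ℂ) : ∀ᶠ w in 𝓝[≠] z, w + v ∉ PP.lattice := by
  have h1 : Tendsto (fun w : ℂ => w + v) (𝓝[≠] z) (𝓝[≠] (z + v)) := by
    refine tendsto_nhdsWithin_iff.2 ⟨?_, ?_⟩
    · have h2 : ContinuousAt (fun w : ℂ => w + v) z := by fun_prop
      exact h2.tendsto.mono_left nhdsWithin_le_nhds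
    · filter_upwards [self_mem_nhdsWithin] with w hw h
      exact hw (add_right_cancel h)
  exact h1.eventually (eventually_notMem (z + v))

theorem hasDerivAt_P {z : ℂ} (hz : z ∉ PP.lattice) :
    HasDerivAt PP.weierstrassP (PP.derivWeierstrassP z) z := by
  have h1 : DifferentiableAt ℂ PP.weierstrassP z :=
    (PP.analyticOnNhd_weierstrassP z hz).differentiableAt
  have h2 := h1.hasDerivAt
  rwa [PP.deriv_weierstrassP] at h2

theorem continuousAt_P {z : ℂ} (hz : z ∉ PP.lattice) : ContinuousAt PP.weierstrassP z :=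
  (hasDerivAt_P hz).continuousAt

theorem differentiableAt_Q {z : ℂ} (hz : z ∉ PP.lattice) :
    DifferentiableAt ℂ PP.derivWeierstrassP z :=
  (PP.analyticOnNhd_derivWeierstrassP z hz).differentiableAt

theorem P_add {l : ℂ} (hl : l ∈ PP.lattice) (z : ℂ) :
    PP.weierstrassP (z + l) = PP.weierstrassP z := PP.weierstrassP_add_coe z ⟨l, hl⟩

theorem Q_add {l : ℂ} (hl : l ∈ PP.lattice) (z : ℂ) :
    PP.derivWeierstrassP (z + l) = PP.derivWeierstrassP z := PP.derivWeierstrassP_add_coe z ⟨l, hl⟩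

/-- The simple pole of `E1` at a lattice point. -/
theorem tendsto_E1 {l : ℂ} (hl : l ∈ PP.lattice) :
    Tendsto (fun z => (z - l) * E1 z) (𝓝[≠] l) (𝓝 1) := by
  have h1 : Tendsto (fun z : ℂ => 1 + (z * ZE 0 z - z * (e2E * z) -
      z * (etaE * (starRingEnd ℂ) z))) (𝓝 0) (𝓝 1) := by
    have h2 : ContinuousAt (fun z : ℂ => 1 + (z * ZE 0 z - z * (e2E * z) -
        z * (etaE * (starRingEnd ℂ) z))) 0 := by
      refine continuousAt_const.add (((continuousAt_id.mul analyticAt_ZE.continuousAt).sub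
        (continuousAt_id.mul (continuousAt_const.mul continuousAt_id))).sub
        (continuousAt_id.mul (continuousAt_const.mul Complex.continuous_conj.continuousAt)))
    have h3 := h2.tendsto
    simp only [zero_mul, sub_zero, add_zero] at h3
    exact h3
  have h4 := tendsto_translate (l := l) (h1.mono_left (nhdsWithin_le_nhds (s := {0}ᶜ)))
  refine h4.congr' ?_
  filter_upwards [self_mem_nhdsWithin] with z hz
  have hz0 : z - l ≠ 0 := sub_ne_zero.2 hz
  have h5 := mul_inv_cancel₀ hz0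
  rw [E1_eq_near hl z]
  linear_combination -h5

end

end Pool.Agent.Lib.MP_1a91b9_nuT.S3
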