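import Pool.Agent.Lib.MP_1a91b9_nuT.S3.Zeta

/-!
# Stream S3, file Quasi: quasi-periodicity of the zeta function, `E1` is periodic
-/

set_option autoImplicit false

namespace Pool.Agent.Lib.MP_1a91b9_nuT.S3

open Complex Filter Topology

noncomputable section

variable [CD]

theorem isOpen_compl : IsOpen ((PP.lattice : Set ℂ)ᶜ) := PP.isClosed_lattice.isOpen_compl

theorem countable_lat : (PP.lattice : Set ℂ).Countable :=
  countable_of_Lindelof_of_discrete (X := PP.lattice)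

theorem isPreconnected_compl_of_countable {s : Set ℂ} (hs : s.Countable) :
    IsPreconnected sᶜ :=
  (Set.Countable.isConnected_compl_of_one_lt_rank (by simp) hs).2

theorem half_notMem : (1 / 2 : ℂ) ∉ PP.lattice := PP.ω₁_div_two_notMem_lattice

theorem add_mem_iff {z l : ℂ} (hl : l ∈ PP.lattice) : z + l ∈ PP.lattice ↔ z ∈ PP.lattice := by
  constructor
  · intro h
    have := sub_mem h hl
    rwa [add_sub_cancel_right] at this
  · intro h
    exact add_mem h hl

/-- The quasi-period. -/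
def ee (l : ℂ) : ℂ := Zf (1 / 2 + l) - Zf (1 / 2)

theorem Zf_add_aux {z l : ℂ} (hz : z ∉ PP.lattice) (hl : l ∈ PP.lattice) :
    Zf (z + l) - Zf z = ee l := by
  have hd : ∀ w ∈ ((PP.lattice : Set ℂ)ᶜ), HasDerivAt (fun z => Zf (z + l) - Zf z) 0 w := by
    intro w hw
    have hw2 : w + l ∉ PP.lattice := fun h => hw ((add_mem_iff hl).1 h)
    have h1 := (hasDerivAt_Zf hw2).comp_add_const w l
    have h2 := h1.sub (hasDerivAt_Zf hw)
    refine h2.congr_deriv ?_
    have h3 := PP.weierstrassP_add_coe w ⟨l, hl⟩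
    have h4 : PP.weierstrassP (w + l) = PP.weierstrassP w := h3
    rw [h4]
    ring
  have h5 := isOpen_compl.is_const_of_deriv_eq_zero (f := fun z => Zf (z + l) - Zf z)
    (isPreconnected_compl_of_countable countable_lat)
    (fun w hw => (hd w hw).differentiableAt.differentiableWithinAt)
    (fun w hw => (hd w hw).deriv) hz half_notMem
  exact h5

theorem ee_add {l m : ℂ} (hl : l ∈ PP.lattice) (hm : m ∈ PP.lattice) :
    ee (l + m) = ee l + ee m := by
  have h1 : 1 / 2 + l ∉ PP.lattice := fun h => half_notMem ((add_mem_iff hl).1 h)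
  have h2 := Zf_add_aux h1 hm
  rw [← h2, ee, ee]
  ring_nf

theorem ee_neg {l : ℂ} (hl : l ∈ PP.lattice) : ee (-l) = - ee l := by
  have h1 : -(1 / 2 : ℂ) ∉ PP.lattice := fun h => half_notMem (by simpa using neg_mem h)
  have h2 := Zf_add_aux h1 (neg_mem hl)
  rw [← h2, ← neg_add, Zf_neg, Zf_neg, ee]
  ring

/-- the quasi period of a lattice point `l` with `l / 2` not in the lattice -/
theorem ee_half {l : ℂ} (hl : l ∈ PP.lattice) (h2 : l / 2 ∉ PP.lattice) :
    ee l = 2 * Zf (l / 2) := by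
  have h1 : -(l / 2) ∉ PP.lattice := fun h => h2 (by simpa using neg_mem h)
  have h3 := Zf_add_aux h1 hl
  have h4 : -(l / 2) + l = l / 2 := by ring
  rw [← h3, h4, Zf_neg]
  ring

theorem zt_half_notMem : zt / 2 ∉ PP.lattice := PP.ω₂_div_two_notMem_lattice

theorem ee_one : ee 1 = e2E + etaE := by
  rw [ee_half one_mem half_notMem, e2E]
  ring

theorem ee_ztt : ee zt = e2E * zt + etaE * (starRingEnd ℂ) zt := by
  have h := zt_sub_conj
  have h1 : etaE * (zt - (starRingEnd ℂ) zt) = 2 * Zf (1 / 2) * zt - 2 * Zf (zt / 2) := by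
    rw [etaE, div_mul_cancel₀ _ h]
  rw [ee_half zt_mem zt_half_notMem, e2E]
  linear_combination h1

theorem ee_zero : ee 0 = 0 := by
  rw [ee, add_zero, sub_self]

theorem ee_nat (n : ℕ) {l : ℂ} (hl : l ∈ PP.lattice) : ee (n * l) = n * ee l := by
  induction n with
  | zero => simp [ee_zero]
  | succ n ih =>
    have h1 : ((n + 1 : ℕ) : ℂ) * l = n * l + l := by push_cast; ring
    rw [h1, ee_add (mul_mem (nat_mem n) hl) hl, ih]
    push_cast
    ring

theorem ee_int (n : ℤ) {l : ℂ} (hl : l ∈ PP.lattice) : ee (n * l) = n * ee l := by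
  obtain ⟨m, rfl | rfl⟩ := n.eq_nat_or_neg
  · exact_mod_cast ee_nat m hl
  · have h1 : ((-(m : ℤ) : ℤ) : ℂ) * l = -((m : ℂ) * l) := by push_cast; ring
    rw [h1, ee_neg (mul_mem (nat_mem m) hl), ee_nat m hl]
    push_cast
    ring

theorem ee_eq {l : ℂ} (hl : l ∈ PP.lattice) : ee l = e2E * l + etaE * (starRingEnd ℂ) l := by
  obtain ⟨a, b, rfl⟩ := mem_PP.1 hl
  have h1 : ee ((a : ℂ) + b * zt) = ee ((a : ℂ) * 1) + ee ((b : ℂ) * zt) := by
    rw [mul_one]
    exact ee_add (int_mem a) (mul_mem (int_mem b) zt_mem)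
  rw [h1, ee_int a one_mem, ee_int b zt_mem, ee_ztt, ee_one, map_add, map_mul, map_intCast,
    map_intCast]
  ring

/-- Every lattice point is isolated in the lattice. -/
theorem eventually_notMem (l : ℂ) : ∀ᶠ z in 𝓝[≠] l, z ∉ PP.lattice := by
  have h := PP.compl_lattice_sdiff_singleton_mem_nhds l
  filter_upwards [self_mem_nhdsWithin, mem_nhdsWithin_of_mem_nhds h] with z hz hz2 hz3
  exact hz2 ⟨hz3, hz⟩

/-- The value of `Zf` at a lattice point. -/
theorem Zf_coe {l : ℂ} (hl : l ∈ PP.lattice) :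
    Zf l = e2E * l + etaE * (starRingEnd ℂ) l := by
  have h1 : ∀ᶠ u in 𝓝[≠] (0 : ℂ), ZE l (u + l) + l⁻¹ + (u + l) * (l ^ 2)⁻¹ = ZE 0 u + ee l := by
    filter_upwards [eventually_notMem 0, self_mem_nhdsWithin] with u hu hu0
    have h2 := Zf_add_aux hu hl
    have h3 := Zf_eq_ZE ⟨l, hl⟩ (u + l)
    have h4 : Zf (u + l) = ZE l (u + l) + ((u + l - l)⁻¹ + l⁻¹ + (u + l) * (l ^ 2)⁻¹) := h3
    rw [add_sub_cancel_right] at h4
    have h5 := Zf_eq_ZE_zero u
    linear_combination h2 - h4 + h5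
  have hc1 : ContinuousAt (fun u => ZE l (u + l) + l⁻¹ + (u + l) * (l ^ 2)⁻¹) 0 := by
    have h6 : HasDerivAt (ZE l) (- PP.weierstrassPExcept l l) l :=
      hasDerivAt_ZE (l₀ := l) (z := l) (fun h => h.2 rfl)
    have h7 : ContinuousAt (fun u => ZE l (u + l)) 0 := by
      apply ContinuousAt.comp (g := ZE l) (f := fun u => u + l)
      · rw [zero_add]
        exact h6.continuousAt
      · fun_prop
    exact (h7.add continuousAt_const).add (by fun_prop)
  have hc2 : ContinuousAt (fun u => ZE 0 u + ee l) 0 :=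
    hasDerivAt_ZE_zero.continuousAt.add continuousAt_const
  have h8 := tendsto_nhds_unique_of_eventuallyEq
    (hc1.tendsto.mono_left (nhdsWithin_le_nhds (s := {0}ᶜ)))
    (hc2.tendsto.mono_left (nhdsWithin_le_nhds (s := {0}ᶜ))) h1
  simp only [zero_add, ZE_zero_zero] at h8
  have h9 := Zf_eq_ZE ⟨l, hl⟩ l
  have h10 : Zf l = ZE l l + ((l - l)⁻¹ + l⁻¹ + l * (l ^ 2)⁻¹) := h9
  rw [sub_self, inv_zero, zero_add] at h10
  rw [h10, ← ee_eq hl, ← h8]
  ring

theorem Zf_add {l : ℂ} (hl : l ∈ PP.lattice) (z : ℂ) :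
    Zf (z + l) = Zf z + (e2E * l + etaE * (starRingEnd ℂ) l) := by
  by_cases hz : z ∈ PP.lattice
  · rw [Zf_coe (add_mem hz hl), Zf_coe hz, map_add]
    ring
  · rw [← ee_eq hl, ← Zf_add_aux hz hl]
    ring

/-- `E1` is periodic, on all of `ℂ`. -/
theorem E1_add {l : ℂ} (hl : l ∈ PP.lattice) (z : ℂ) : E1 (z + l) = E1 z := by
  rw [E1, E1, Zf_add hl, map_add]
  ring

theorem E1_neg (z : ℂ) : E1 (-z) = - E1 z := by
  rw [E1, E1, Zf_neg, map_neg]
  ring

theorem E1_zero : E1 0 = 0 := by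
  rw [E1, Zf_zero]
  simp

theorem E1_coe {l : ℂ} (hl : l ∈ PP.lattice) : E1 l = 0 := by
  rw [E1, Zf_coe hl]
  ring

theorem E1_sub {l : ℂ} (hl : l ∈ PP.lattice) (z : ℂ) : E1 (z - l) = E1 z := by
  have := E1_add hl (z - l)
  rwa [sub_add_cancel, eq_comm] at this

/-- `E1` near a lattice point. -/
theorem E1_eq_near {l : ℂ} (hl : l ∈ PP.lattice) (z : ℂ) :
    E1 z = (z - l)⁻¹ + ZE 0 (z - l) - e2E * (z - l) - etaE * (starRingEnd ℂ) (z - l) := by
  rw [← E1_sub hl z, E1, Zf_eq_ZE_zero]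

theorem continuousAt_Zf {z : ℂ} (hz : z ∉ PP.lattice) : ContinuousAt Zf z :=
  (hasDerivAt_Zf hz).continuousAt

theorem continuousAt_E1 {z : ℂ} (hz : z ∉ PP.lattice) : ContinuousAt E1 z := by
  have h : ContinuousAt (fun z => Zf z - e2E * z - etaE * (starRingEnd ℂ) z) z :=
    ((continuousAt_Zf hz).sub (continuousAt_const.mul continuousAt_id)).sub
      (continuousAt_const.mul Complex.continuous_conj.continuousAt)
  exact h

end

end Pool.Agent.Lib.MP_1a91b9_nuT.S3
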