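import Pool.Agent.Lib.MP_1a91b9_nuT.S3.Lat

/-!
# Stream S3, file Zeta: the Weierstrass zeta function of `ℤ + ℤ zt`
-/

set_option autoImplicit false

namespace Pool.Agent.Lib.MP_1a91b9_nuT.S3

open Complex Filter Topology

noncomputable section

variable [CD]

/-- One term of the series of the zeta function. -/
def zterm (l z : ℂ) : ℂ := (z - l)⁻¹ + l⁻¹ + z * (l ^ 2)⁻¹

/-- The zeta function with the term `l₀` removed. -/
def ZE (l₀ z : ℂ) : ℂ := ∑' l : PP.lattice, if (l : ℂ) = l₀ then 0 else zterm l z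

theorem zterm_eq {l z : ℂ} (hl : l ≠ 0) (hz : z ≠ l) : zterm l z = z ^ 2 / (l ^ 2 * (z - l)) := by
  have h : z - l ≠ 0 := sub_ne_zero.2 hz
  rw [zterm]
  field_simp
  ring

theorem norm_zterm_le {r : ℝ} (hr : 0 < r) {l z : ℂ} (hz : ‖z‖ < r) (hl : 2 * r ≤ ‖l‖) :
    ‖zterm l z‖ ≤ 2 * r ^ 2 * ‖l‖ ^ (-3 : ℝ) := by
  have h0 : 0 < ‖l‖ := by linarith
  have hl0 : l ≠ 0 := norm_pos_iff.1 h0
  have hne : z ≠ l := by rintro rfl; linarith
  have h1 : ‖l‖ / 2 ≤ ‖z - l‖ := by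
    rw [norm_sub_rev]
    exact le_trans (by linarith) (norm_sub_norm_le l z)
  rw [zterm_eq hl0 hne, norm_div, norm_mul, norm_pow, norm_pow, Real.rpow_neg h0.le]
  have e3 : ‖l‖ ^ (3 : ℝ) = ‖l‖ ^ 3 := by norm_cast
  have h2 : 0 < ‖z - l‖ := by linarith
  rw [e3, ← div_eq_mul_inv, div_le_div_iff₀ (by positivity) (by positivity)]
  calc ‖z‖ ^ 2 * ‖l‖ ^ 3 ≤ r ^ 2 * ‖l‖ ^ 3 := by gcongr
    _ = 2 * r ^ 2 * (‖l‖ ^ 2 * (‖l‖ / 2)) := by ring
    _ ≤ 2 * r ^ 2 * (‖l‖ ^ 2 * ‖z - l‖) := by gcongr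

theorem hasSumLocallyUniformly_ZE (l₀ : ℂ) :
    HasSumLocallyUniformly
      (fun (l : PP.lattice) (z : ℂ) ↦ if (l : ℂ) = l₀ then 0 else zterm l z) (ZE l₀) := by
  refine PP.hasSumLocallyUniformly_aux (u := fun r l => 2 * r ^ 2 * ‖l‖ ^ (-3 : ℝ)) _
    (fun _ _ ↦ (ZLattice.summable_norm_rpow _ _ (by simp; norm_num)).mul_left _) fun r hr ↦
    Filter.eventually_atTop.mpr ⟨2 * r, ?_⟩
  rintro _ h s hs l rfl
  split_ifs
  · rw [norm_zero]
    have : (0 : ℝ) ≤ ‖l‖ ^ (-3 : ℝ) := by positivity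
    positivity
  · exact norm_zterm_le hr hs h

theorem differentiableOn_zterm {l l₀ : ℂ} (h : l ∈ PP.lattice) (hl : l ≠ l₀) :
    DifferentiableOn ℂ (zterm l) ((PP.lattice : Set ℂ) \ {l₀})ᶜ := by
  have : DifferentiableOn ℂ (fun z => (z - l)⁻¹ + l⁻¹ + z * (l ^ 2)⁻¹)
      ((PP.lattice : Set ℂ) \ {l₀})ᶜ := by
    refine ((DifferentiableOn.inv (by fun_prop) ?_).add (by fun_prop)).add (by fun_prop)
    intro x hx hxl
    apply hx
    rw [sub_eq_zero.1 hxl]
    exact ⟨h, by simpa using hl⟩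
  exact this

theorem differentiableOn_ZE (l₀ : ℂ) :
    DifferentiableOn ℂ (ZE l₀) ((PP.lattice : Set ℂ) \ {l₀})ᶜ := by
  refine (hasSumLocallyUniformly_ZE l₀).hasSumLocallyUniformlyOn.differentiableOn
    (.of_forall fun s ↦ .fun_sum fun i hi ↦ ?_) PP.isOpen_compl_lattice_sdiff
  split_ifs with h
  · exact differentiableOn_const _
  · exact differentiableOn_zterm i.2 h

theorem hasDerivAt_zterm {l z : ℂ} (h : z ≠ l) :
    HasDerivAt (zterm l) (-(1 / (z - l) ^ 2 - 1 / l ^ 2)) z := by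
  have h1 : z - l ≠ 0 := sub_ne_zero.2 h
  have h2 : HasDerivAt (fun z : ℂ => z - l) 1 z := (hasDerivAt_id z).sub_const l
  have h3 := h2.inv h1
  have h4 := ((h3.add_const l⁻¹).add ((hasDerivAt_id z).mul_const (l ^ 2)⁻¹))
  refine h4.congr_deriv ?_
  rw [one_div, one_div]
  ring

theorem eqOn_deriv_ZE (l₀ : ℂ) :
    Set.EqOn (deriv (ZE l₀)) (fun z => - PP.weierstrassPExcept l₀ z)
      ((PP.lattice : Set ℂ) \ {l₀})ᶜ := by
  refine ((hasSumLocallyUniformly_ZE l₀).tendstoLocallyUniformlyOn.deriv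
    (.of_forall fun s ↦ ?_) PP.isOpen_compl_lattice_sdiff).unique ?_
  · refine .fun_sum fun i hi ↦ ?_
    split_ifs with h
    · exact differentiableOn_const _
    · exact differentiableOn_zterm i.2 h
  · refine (PP.hasSumLocallyUniformly_weierstrassPExcept l₀).tendstoLocallyUniformlyOn.neg.congr ?_
    intro s z hz
    have hne : ∀ i : PP.lattice, (i : ℂ) ≠ l₀ → z ≠ i := by
      intro i hi h
      apply hz
      rw [h]
      exact ⟨i.2, by simpa using hi⟩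
    show - (∑ i ∈ s, if (i : ℂ) = l₀ then 0 else (1 / (z - i) ^ 2 - 1 / (i : ℂ) ^ 2)) =
      deriv (fun w => ∑ i ∈ s, if (i : ℂ) = l₀ then 0 else zterm i w) z
    rw [deriv_fun_sum]
    · rw [← Finset.sum_neg_distrib]
      refine Finset.sum_congr rfl fun i _ => ?_
      split_ifs with h
      · simp
      · exact (hasDerivAt_zterm (hne i h)).deriv.symm
    · intro i _
      split_ifs with h
      · exact differentiableAt_const _
      · exact (hasDerivAt_zterm (hne i h)).differentiableAt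

theorem isOpen_set (l₀ : ℂ) : IsOpen ((PP.lattice : Set ℂ) \ {l₀})ᶜ :=
  PP.isOpen_compl_lattice_sdiff

theorem hasDerivAt_ZE {l₀ z : ℂ} (hz : z ∈ ((PP.lattice : Set ℂ) \ {l₀})ᶜ) :
    HasDerivAt (ZE l₀) (- PP.weierstrassPExcept l₀ z) z := by
  have h1 := (differentiableOn_ZE l₀).differentiableAt ((isOpen_set l₀).mem_nhds hz)
  have h2 : deriv (ZE l₀) z = - PP.weierstrassPExcept l₀ z := eqOn_deriv_ZE l₀ hz
  rw [← h2]
  exact h1.hasDerivAt

/-- The zeta function is the sum of the terms `zterm`. -/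
theorem Zf_eq (z : ℂ) : Zf z = ∑' l : PP.lattice, zterm l z := by
  rw [Zf_lat, ← (Equiv.neg PP.lattice).tsum_eq]
  congr with l
  rw [Equiv.neg_apply, NegMemClass.coe_neg, zterm, neg_sq, inv_neg, sub_eq_add_neg]
  ring

theorem hasSum_zterm (z : ℂ) : HasSum (fun l : PP.lattice => zterm l z) (Zf z) := by
  have h : Summable (fun l : PP.lattice => zterm l z) := by
    have h1 : Summable (fun l : PP.lattice => if (l : ℂ) = PP.ω₁ / 2 then 0 else zterm l z) :=
      ((hasSumLocallyUniformly_ZE (PP.ω₁ / 2)).hasSum (x := z)).summable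
    refine h1.congr fun l => ?_
    rw [if_neg]
    exact fun e ↦ PP.ω₁_div_two_notMem_lattice (e ▸ l.2)
  rw [Zf_eq]
  exact h.hasSum

/-- The series of the zeta function in the form of its definition. -/
theorem hasSum_Zf (z : ℂ) :
    HasSum (fun l : PP.lattice => ((z + l)⁻¹ - (l : ℂ)⁻¹ + z * ((l : ℂ) ^ 2)⁻¹)) (Zf z) := by
  rw [← (Equiv.neg PP.lattice).hasSum_iff]
  refine (hasSum_zterm z).congr_fun ?_ |> fun h => h
  intro l
  show (z + ((-l : PP.lattice) : ℂ))⁻¹ - ((-l : PP.lattice) : ℂ)⁻¹ +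
    z * (((-l : PP.lattice) : ℂ) ^ 2)⁻¹ = zterm l z
  rw [NegMemClass.coe_neg, zterm, neg_sq, inv_neg, sub_eq_add_neg z]
  ring

/-- Removing one term of the zeta function. -/
theorem Zf_eq_ZE (l₀ : PP.lattice) (z : ℂ) : Zf z = ZE l₀ z + zterm l₀ z := by
  have h1 : HasSum (fun l : PP.lattice => if (l : ℂ) = l₀ then 0 else zterm l z) (ZE l₀ z) :=
    (hasSumLocallyUniformly_ZE l₀).hasSum
  have h2 : HasSum (fun l : PP.lattice => if (l : ℂ) = l₀ then zterm l₀ z else 0)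
      (zterm l₀ z) := by
    have := hasSum_ite_eq l₀ (zterm l₀ z)
    refine this.congr_fun ?_ |> fun h => h
    intro l
    by_cases h : l = l₀
    · subst h; simp
    · rw [if_neg h, if_neg (fun e => h (Subtype.ext e))]
  refine (hasSum_zterm z).unique ?_
  refine (h1.add h2).congr_fun ?_ |> fun h => h
  intro l
  by_cases h : (l : ℂ) = l₀
  · rw [if_pos h, if_pos h, h, zero_add]
  · rw [if_neg h, if_neg h, add_zero]

theorem Zf_eq_ZE_zero (z : ℂ) : Zf z = z⁻¹ + ZE 0 z := by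
  have := Zf_eq_ZE 0 z
  rw [this, ZeroMemClass.coe_zero, zterm]
  simp
  ring

theorem ZE_of_notMem {l₀ : ℂ} (h : l₀ ∉ PP.lattice) : ZE l₀ = Zf := by
  funext z
  rw [ZE, Zf_eq]
  congr with l
  rw [if_neg]
  rintro rfl
  exact h l.2

theorem hasDerivAt_Zf {z : ℂ} (hz : z ∉ PP.lattice) :
    HasDerivAt Zf (- PP.weierstrassP z) z := by
  have h1 := hasDerivAt_ZE (l₀ := PP.ω₁ / 2) (z := z) (fun h => hz h.1)
  rwa [ZE_of_notMem PP.ω₁_div_two_notMem_lattice,
    PP.weierstrassPExcept_of_notMem _ PP.ω₁_div_two_notMem_lattice] at h1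

theorem hasDerivAt_ZE_zero : HasDerivAt (ZE 0) 0 0 := by
  have h1 := hasDerivAt_ZE (l₀ := 0) (z := 0) (fun h => h.2 rfl)
  rwa [PP.weierstrassPExcept_zero, neg_zero] at h1

theorem Zf_zero : Zf 0 = 0 := by
  have := Zf_neg 0
  rw [neg_zero] at this
  have h2 : 2 * Zf 0 = 0 := by linear_combination this
  simpa using h2

theorem ZE_zero_zero : ZE 0 0 = 0 := by
  have := Zf_eq_ZE_zero 0
  rw [Zf_zero] at this
  simpa using this.symm

end

end Pool.Agent.Lib.MP_1a91b9_nuT.S3
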